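import Pool.Agent.Helper58.Grid.EvalUse

/-! # The local conditions for the used edges of an assignment -/

namespace Pool.Agent.Helper58.Grid

open Pool.Agent.Helper52.Grid

/-! ## finite checks inside a cell -/

theorem h_two_local (κ : Kind) (r : Fin 6) (j : Fin 4) : hCell κ r j = 2 →
    1 ≤ (j : ℕ) ∧ (j : ℕ) + 1 < 4 ∧
    (hCell κ r (j - 1) = 0 ∨ vCell κ r j = 0 ∨ (1 ≤ (r : ℕ) ∧ vCell κ (r - 1) j = 0)) ∧
    (hCell κ r (j + 1) = 0 ∨ vCell κ r (j + 1) = 0 ∨
      (1 ≤ (r : ℕ) ∧ vCell κ (r - 1) (j + 1) = 0)) := by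
  revert r j
  cases κ <;> decide

theorem v_two_local (κ : Kind) (r : Fin 6) (j : Fin 4) : vCell κ r j = 2 →
    1 ≤ (j : ℕ) ∧
    (hCell κ r (j - 1) = 0 ∨ hCell κ r j = 0 ∨ vCell κ r j = 0 ∨
      (1 ≤ (r : ℕ) ∧ vCell κ (r - 1) j = 0)) ∧
    ((r : ℕ) = 5 ∧ κ = .cross ∧ ((j : ℕ) = 1 ∨ (j : ℕ) = 2) ∨ (r : ℕ) < 5 ∧
      (hCell κ (r + 1) (j - 1) = 0 ∨ hCell κ (r + 1) j = 0 ∨ vCell κ (r + 1) j = 0)) := by
  revert r j
  cases κ <;> decide

/-- cost of the edge to the left neighbour -/
def wC (κ : Kind) (r j : ℕ) : ℕ := if j = 0 then (if r % 2 = 1 then 0 else 4) else hCell κ r (j - 1)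

/-- is the edge to the left neighbour used -/
def wU (κ : Kind) (b c : Bool) (r j : ℕ) : Bool :=
  if j = 0 then decide (r % 2 = 1) else hcell κ b c r (j - 1)

/-- cost of the edge to the upper neighbour -/
def nC (κ : Kind) (r j : ℕ) : ℕ :=
  if r = 0 then (if (κ = .cross ∨ κ = .dblk) ∧ (j = 1 ∨ j = 2) then 2 else 4)
  else vCell κ (r - 1) j

/-- is the edge to the upper neighbour used -/
def nU (κ : Kind) (b c : Bool) (r j : ℕ) : Bool :=
  if r = 0 then (if (κ = .cross ∨ κ = .dblk) ∧ (j = 1 ∨ j = 2) then !c else false)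
  else vcell κ b c (r - 1) j

theorem deg_local (κ : Kind) (b c : Bool) (r : Fin 6) (j : Fin 4)
    (h : κ = .dblk → c = true → b = true) :
    (hCell κ r j = 0 ∨ wC κ r j = 0 ∨ vCell κ r j = 0 ∨ nC κ r j = 0) →
    (hcell κ b c r j).toNat + (wU κ b c r j).toNat + (vcell κ b c r j).toNat +
      (nU κ b c r j).toNat = 2 := by
  revert r j h
  cases κ <;> cases b <;> cases c <;> decide

section

variable {s : List Sub} {M : ℕ} {a ch : ℕ → Bool}

theorem vert_h {x y : ℕ} (h : hC s M x y = 0) : Vert (hC s M) (vC s M) (x, y) := Or.inl h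

theorem vert_w {x y : ℕ} (h : hC s M x y = 0) : Vert (hC s M) (vC s M) (x + 1, y) :=
  Or.inr (Or.inl h)

theorem vert_v {x y : ℕ} (h : vC s M x y = 0) : Vert (hC s M) (vC s M) (x, y) :=
  Or.inr (Or.inr (Or.inl h))

theorem vert_n {x y : ℕ} (h : vC s M x y = 0) : Vert (hC s M) (vC s M) (x, y + 1) :=
  Or.inr (Or.inr (Or.inr h))

/-- positions -/
theorem pos_x (s : List Sub) (x : ℕ) : x < 5 ∨ (∃ k j, k < s.length ∧ j < 4 ∧ x = 5 + 4 * k + j) ∨
    ∃ j, x = 5 + 4 * s.length + j := by
  rcases Nat.lt_or_ge x 5 with h | h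
  · exact Or.inl h
  · rcases Nat.lt_or_ge x (5 + 4 * s.length) with h' | h'
    · exact Or.inr (Or.inl ⟨(x - 5) / 4, (x - 5) % 4, by omega, by omega, by omega⟩)
    · exact Or.inr (Or.inr ⟨x - (5 + 4 * s.length), by omega⟩)

theorem pos_y (M y : ℕ) : y < 4 ∨ (∃ i r, i < 2 * M + 1 ∧ r < 6 ∧ y = 4 + 6 * i + r) ∨
    4 + 6 * (2 * M + 1) ≤ y := by
  rcases Nat.lt_or_ge y 4 with h | h
  · exact Or.inl h
  · rcases Nat.lt_or_ge y (4 + 6 * (2 * M + 1)) with h' | h'
    · exact Or.inr (Or.inl ⟨(y - 4) / 6, (y - 4) % 6, by omega, by omega, by omega⟩)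
    · exact Or.inr (Or.inr h')

theorem hR_two {r j : ℕ} (h : hR r j = 2) : (r = 3 ∨ r = 4) ∧ j = 0 := by
  unfold hR at h
  split at h <;> simp_all

theorem vR_two {i r j : ℕ} (h : vR i r j = 2) : r = 3 ∧ (j = 0 ∨ j = 1) := by
  unfold vR at h
  split at h
  · split at h <;> simp_all
  · split at h <;> simp_all
  · (split_ifs at h; all_goals omega)
  · simp at h

theorem hL_two {i r x : ℕ} (h : hL M i r x = 2) : (r = 3 ∨ r = 4) ∧ x = 3 := by
  unfold hL at h
  split at h <;> (try split_ifs at h) <;> simp_all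

theorem vL_two {i r x : ℕ} (h : vL M i r x = 2) : r = 3 ∧ (x = 3 ∨ x = 4) := by
  unfold vL at h
  split at h
  · (split_ifs at h; all_goals omega)
  · (split_ifs at h; all_goals omega)
  · split at h <;> simp_all
  · split at h <;> simp_all
  · simp at h

theorem hC_two {x y : ℕ} (h : hC s M x y = 2) :
    Vert (hC s M) (vC s M) (x, y) ∧ Vert (hC s M) (vC s M) (x + 1, y) := by
  rcases pos_y M y with hy | ⟨i, r, hi, hr, rfl⟩ | hy
  · rcases pos_x s x with hx | ⟨k, j, hk, hj, rfl⟩ | ⟨j, rfl⟩
    · rw [hC_topL hx hy] at h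
      (split_ifs at h; all_goals omega)
    · rw [hC_top hk hj hy] at h
      have h1 : (y = 3 ∨ y = 2) ∧ j = 1 := by
        (split_ifs at h; all_goals omega)
      obtain ⟨h1, rfl⟩ := h1
      have e0 : hC s M (5 + 4 * k + 0) y = 0 := by
        rw [hC_top hk (by norm_num) hy]
        rcases h1 with rfl | rfl <;> simp
      have e2 : hC s M (5 + 4 * k + 2) y = 0 := by
        rw [hC_top hk (by norm_num) hy]
        rcases h1 with rfl | rfl <;> simp
      exact ⟨vert_w e0, vert_h e2⟩
    · rw [hC_topR hy] at h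
      (split_ifs at h; all_goals omega)
  · rcases pos_x s x with hx | ⟨k, j, hk, hj, rfl⟩ | ⟨j, rfl⟩
    · rw [hC_left hx hi hr] at h
      obtain ⟨h1, rfl⟩ := hL_two h
      rcases h1 with rfl | rfl
      · have e1 : vC s M 3 (4 + 6 * i + 2) = 0 := by rw [vC_left (by norm_num) hi (by norm_num)]; rfl
        have e2 : hC s M 4 (4 + 6 * i + 3) = 0 := by rw [hC_left (by norm_num) hi (by norm_num)]; rfl
        exact ⟨vert_n e1, vert_h e2⟩
      · have e1 : hC s M 2 (4 + 6 * i + 4) = 0 := by rw [hC_left (by norm_num) hi (by norm_num)]; rfl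
        have e2 : vC s M 4 (4 + 6 * i + 4) = 0 := by rw [vC_left (by norm_num) hi (by norm_num)]; rfl
        exact ⟨vert_w e1, vert_v e2⟩
    · rw [hC_cell hk hi hr hj] at h
      obtain ⟨h1, h2, h3, h4⟩ := h_two_local _ ⟨r, hr⟩ ⟨j, hj⟩ h
      simp only at h1 h2 h3 h4
      constructor
      · rcases h3 with h3 | h3 | ⟨h3, h5⟩
        · rw [← hC_cell hk hi hr (by omega)] at h3
          have := vert_w h3
          rwa [show 5 + 4 * k + (j - 1) + 1 = 5 + 4 * k + j by omega] at this
        · rw [← vC_cell hk hi hr hj] at h3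
          exact vert_v h3
        · rw [← vC_cell hk hi (by omega) hj] at h5
          have := vert_n h5
          rwa [show 4 + 6 * i + (r - 1) + 1 = 4 + 6 * i + r by omega] at this
      · rcases h4 with h3 | h3 | ⟨h3, h5⟩
        · rw [← hC_cell hk hi hr (by omega)] at h3
          exact vert_h h3
        · rw [← vC_cell hk hi hr (by omega)] at h3
          exact vert_v h3
        · rw [← vC_cell hk hi (by omega) (by omega)] at h5
          have := vert_n h5
          rwa [show 4 + 6 * i + (r - 1) + 1 = 4 + 6 * i + r by omega] at this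
    · rw [hC_right hi hr] at h
      obtain ⟨h1, rfl⟩ := hR_two h
      rcases h1 with rfl | rfl
      · have e1 : hC s M (4 + 4 * s.length) (4 + 6 * i + 3) = 0 := by
          rw [hC_west le_rfl hi (by norm_num)]; rfl
        have e2 : vC s M (5 + 4 * s.length + 1) (4 + 6 * i + 2) = 0 := by
          rw [vC_right hi (by norm_num)]; rfl
        have e1' := vert_w e1
        rw [show 4 + 4 * s.length + 1 = 5 + 4 * s.length + 0 by omega] at e1'
        exact ⟨e1', vert_n e2⟩
      · have e1 : vC s M (5 + 4 * s.length + 0) (4 + 6 * i + 4) = 0 := by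
          rw [vC_right hi (by norm_num)]; rfl
        have e2 : hC s M (5 + 4 * s.length + 1) (4 + 6 * i + 4) = 0 := by
          rw [hC_right hi (by norm_num)]; rfl
        exact ⟨vert_v e1, vert_h e2⟩
  · rw [hC_bot hy] at h
    omega

theorem kind_cases {o : Sub} {i : ℕ} (h : kind o i = .cross ∨ kind o i = .dblk) :
    ∃ v, o = some (v, true) ∧ i ≤ v := by
  rcases o with _ | ⟨v, b⟩
  · simp [kind] at h
  · rcases b with _ | _
    · exfalso
      rcases h with h | h <;> simp only [kind] at h <;> split_ifs at h <;> simp_all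
    · refine ⟨v, rfl, ?_⟩
      rcases h with h | h <;> simp only [kind] at h <;> (split_ifs at h; all_goals omega)

theorem kind_of_le {v i : ℕ} (h : i ≤ v) :
    kind (some (v, true)) i = .cross ∨ kind (some (v, true)) i = .dblk := by
  rcases Nat.eq_or_lt_of_le h with h | h
  · right; simp [kind, h]
  · left
    simp only [kind]
    rw [if_neg (by omega), if_pos ⟨trivial, h⟩]

theorem cluster_forced {k i v : ℕ} (ho : sg s k = some (v, true)) (hi : i ≤ v)
    (hv : v < 2 * M + 1) : hC s M (5 + 4 * k + 1) (4 + 6 * i + 0) = 0 := by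
  have hk : k < s.length := lt_of_sg (by rw [ho]; simp)
  rw [hC_cell hk (by omega) (by norm_num) (by norm_num), ho]
  rcases kind_of_le hi with h | h <;> rw [h] <;> rfl

theorem vC_two (hs : ∀ k i d, sg s k = some (i, d) → i < 2 * M + 1) {x y : ℕ}
    (h : vC s M x y = 2) :
    Vert (hC s M) (vC s M) (x, y) ∧ Vert (hC s M) (vC s M) (x, y + 1) := by
  rcases pos_y M y with hy | ⟨i, r, hi, hr, rfl⟩ | hy
  · rcases pos_x s x with hx | ⟨k, j, hk, hj, rfl⟩ | ⟨j, rfl⟩
    · rw [vC_topL hx hy] at h
      (split_ifs at h; all_goals omega)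
    · rw [vC_top hk hj hy] at h
      have h1 : (y = 2 ∨ y = 3) ∧ (j = 1 ∨ j = 2) ∧ dock (sg s k) = true := by
        by_cases h5 : (j = 1 ∨ j = 2) ∧ dock (sg s k) = true
        · split_ifs at h <;> first | omega | exact ⟨by omega, h5⟩
        · (split_ifs at h; all_goals omega)
      obtain ⟨h1, h2, h3⟩ := h1
      obtain ⟨v, hv⟩ : ∃ v, sg s k = some (v, true) := by
        rcases ho : sg s k with _ | ⟨v, b⟩
        · rw [ho] at h3; simp [dock] at h3
        · rcases b with _ | _
          · rw [ho] at h3; simp [dock] at h3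
          · exact ⟨v, rfl⟩
      have e0 : ∀ y, y = 2 ∨ y = 3 → hC s M (5 + 4 * k + 0) y = 0 := by
        intro y h1
        rw [hC_top hk (by norm_num) (by omega)]
        rcases h1 with rfl | rfl <;> simp
      have e2 : ∀ y, y = 2 ∨ y = 3 → hC s M (5 + 4 * k + 2) y = 0 := by
        intro y h1
        rw [hC_top hk (by norm_num) (by omega)]
        rcases h1 with rfl | rfl <;> simp
      have hcl := cluster_forced (M := M) hv (Nat.zero_le v) (hs k v true hv)
      rcases h2 with rfl | rfl
      · refine ⟨vert_w (e0 y h1), ?_⟩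
        rcases h1 with rfl | rfl
        · exact vert_w (e0 3 (Or.inr rfl))
        · exact vert_h hcl
      · refine ⟨vert_h (e2 y h1), ?_⟩
        rcases h1 with rfl | rfl
        · exact vert_h (e2 3 (Or.inr rfl))
        · exact vert_w hcl
    · rw [vC_topR hy] at h
      (split_ifs at h; all_goals omega)
  · rcases pos_x s x with hx | ⟨k, j, hk, hj, rfl⟩ | ⟨j, rfl⟩
    · rw [vC_left hx hi hr] at h
      obtain ⟨rfl, h1⟩ := vL_two h
      rcases h1 with rfl | rfl
      · have e1 : vC s M 3 (4 + 6 * i + 2) = 0 := by rw [vC_left (by norm_num) hi (by norm_num)]; rfl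
        have e2 : hC s M 2 (4 + 6 * i + 4) = 0 := by rw [hC_left (by norm_num) hi (by norm_num)]; rfl
        exact ⟨vert_n e1, vert_w e2⟩
      · have e1 : hC s M 4 (4 + 6 * i + 3) = 0 := by rw [hC_left (by norm_num) hi (by norm_num)]; rfl
        have e2 : vC s M 4 (4 + 6 * i + 4) = 0 := by rw [vC_left (by norm_num) hi (by norm_num)]; rfl
        exact ⟨vert_h e1, vert_v e2⟩
    · rw [vC_cell hk hi hr hj] at h
      obtain ⟨h1, h3, h4⟩ := v_two_local _ ⟨r, hr⟩ ⟨j, hj⟩ h
      simp only at h1 h3 h4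
      constructor
      · rcases h3 with h3 | h3 | h3 | ⟨h3, h5⟩
        · rw [← hC_cell hk hi hr (by omega)] at h3
          have := vert_w h3
          rwa [show 5 + 4 * k + (j - 1) + 1 = 5 + 4 * k + j by omega] at this
        · rw [← hC_cell hk hi hr hj] at h3
          exact vert_h h3
        · rw [← vC_cell hk hi hr hj] at h3
          exact vert_v h3
        · rw [← vC_cell hk hi (by omega) hj] at h5
          have := vert_n h5
          rwa [show 4 + 6 * i + (r - 1) + 1 = 4 + 6 * i + r by omega] at this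
      · rcases h4 with ⟨rfl, hc, h6⟩ | ⟨hr5, h3 | h3 | h3⟩
        · obtain ⟨v, hv, hiv⟩ := kind_cases (Or.inl hc)
          have hiv' : i + 1 ≤ v := by
            rcases Nat.eq_or_lt_of_le hiv with h7 | h7
            · rw [hv, h7] at hc
              simp [kind] at hc
            · exact h7
          have hcl := cluster_forced (M := M) hv hiv' (hs k v true hv)
          rw [show 4 + 6 * i + 5 + 1 = 4 + 6 * (i + 1) + 0 by omega]
          rcases h6 with rfl | rfl
          · exact vert_h hcl
          · exact vert_w hcl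
        · rw [← hC_cell hk hi (by omega) (by omega)] at h3
          have := vert_w h3
          rwa [show 5 + 4 * k + (j - 1) + 1 = 5 + 4 * k + j by omega] at this
        · rw [← hC_cell hk hi (by omega) hj] at h3
          exact vert_h h3
        · rw [← vC_cell hk hi (by omega) hj] at h3
          exact vert_v h3
    · rw [vC_right hi hr] at h
      obtain ⟨rfl, h1⟩ := vR_two h
      rcases h1 with rfl | rfl
      · have e1 : hC s M (4 + 4 * s.length) (4 + 6 * i + 3) = 0 := by
          rw [hC_west le_rfl hi (by norm_num)]; rfl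
        have e2 : vC s M (5 + 4 * s.length + 0) (4 + 6 * i + 4) = 0 := by
          rw [vC_right hi (by norm_num)]; rfl
        have e1' := vert_w e1
        rw [show 4 + 4 * s.length + 1 = 5 + 4 * s.length + 0 by omega] at e1'
        exact ⟨e1', vert_v e2⟩
      · have e1 : vC s M (5 + 4 * s.length + 1) (4 + 6 * i + 2) = 0 := by
          rw [vC_right hi (by norm_num)]; rfl
        have e2 : hC s M (5 + 4 * s.length + 1) (4 + 6 * i + 4) = 0 := by
          rw [hC_right hi (by norm_num)]; rfl
        exact ⟨vert_n e1, vert_h e2⟩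
  · rw [vC_bot hy] at h
    omega

/-! ## the degree condition -/

theorem west_top (h0 : 0 < s.length → sg s 0 = none) {k y : ℕ} (hk : k ≤ s.length)
    (hy : y < 4) (hy1 : 1 ≤ y) :
    hC s M (4 + 4 * k) y = if y = 3 ∨ sg s k ≠ none then 0 else 4 := by
  rcases k with _ | k
  · rw [show 4 + 4 * 0 = 4 from rfl, hC_topL (by norm_num) hy]
    have h1 : sg s 0 = none := by
      rcases Nat.eq_zero_or_pos s.length with h | h
      · have : s = [] := List.length_eq_zero_iff.1 h
        rw [this]; rfl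
      · exact h0 h
    by_cases h3 : y = 3
    · simp [h3]
    · simp [h3, h1]
  · rw [show 4 + 4 * (k + 1) = 5 + 4 * k + 3 by omega, hC_top (by omega) (by norm_num) hy]
    by_cases h3 : y = 3
    · simp [h3]
    · by_cases h4 : sg s (k + 1) = none
      · simp [h3, h4, show y ≠ 0 by omega]
      · simp [h3, h4, show y ≠ 0 by omega]

theorem north_left {x i : ℕ} (hx : x < 5) (hi : i < 2 * M + 1) :
    vC s M x (3 + 6 * i) = if x = 1 ∨ (x = 2 ∧ i % 2 = 1) then 0 else 4 := by
  rcases i with _ | i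
  · rw [show 3 + 6 * 0 = 3 from rfl, vC_topL hx (by norm_num)]
    by_cases h : x = 1
    · simp [h]
    · simp [h]
  · rw [show 3 + 6 * (i + 1) = 4 + 6 * i + 5 by omega, vC_left hx (by omega) (by norm_num)]
    rcases x with _ | _ | _ | _ | _ | x
    · rfl
    · simp [vL, show i < 2 * M by omega]
    · rcases Nat.mod_two_eq_zero_or_one i with h | h
      · simp [vL, h, show i < 2 * M by omega, show (i + 1) % 2 = 1 by omega]
      · simp [vL, h, show (i + 1) % 2 = 0 by omega]
    · simp [vL]
    · simp [vL]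
    · omega

theorem north_right {j i : ℕ} (hi : i < 2 * M + 1) :
    vC s M (5 + 4 * s.length + j) (3 + 6 * i) = if j = 2 ∧ i % 2 = 0 then 0 else 4 := by
  rcases i with _ | i
  · rw [show 3 + 6 * 0 = 3 from rfl, vC_topR (by norm_num)]
    by_cases h : j = 2
    · simp [h]
    · simp [h]
  · rw [show 3 + 6 * (i + 1) = 4 + 6 * i + 5 by omega, vC_right (by omega) (by norm_num)]
    rcases j with _ | _ | _ | j
    · rfl
    · rfl
    · rcases Nat.mod_two_eq_zero_or_one i with h | h
      · simp [vR, h, show (i + 1) % 2 = 1 by omega]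
      · simp [vR, h, show (i + 1) % 2 = 0 by omega]
    · simp [vR]

/-- the two conditions at a vertex, in terms of the four costs and the four used edges -/
def Ok (s : List Sub) (M : ℕ) (a ch : ℕ → Bool) (x y x' y' : ℕ) : Prop :=
  (hC s M x y = 0 ∨ hC s M x' y = 0 ∨ vC s M x y = 0 ∨ vC s M x y' = 0) →
    (hUse s M a ch x y).toNat + (hUse s M a ch x' y).toNat + (vUse s M a ch x y).toNat +
      (vUse s M a ch x y').toNat = 2

theorem ok_top_left {x y : ℕ} (hx : x < 5) (hx1 : 1 ≤ x) (hy : y < 4) (hy1 : 1 ≤ y) :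
    Ok s M a ch x y (x - 1) (y - 1) := by
  intro h
  have e1 : hC s M x y = if y = 3 ∧ 1 ≤ x then 0 else 4 := hC_topL hx hy
  have e2 : hC s M (x - 1) y = if y = 3 ∧ 1 ≤ x - 1 then 0 else 4 := hC_topL (by omega) hy
  have e3 : vC s M x y = if y = 3 ∧ x = 1 then 0 else 4 := vC_topL hx hy
  have e4 : vC s M x (y - 1) = if y - 1 = 3 ∧ x = 1 then 0 else 4 := vC_topL hx (by omega)
  rw [use_of_ne_two_h (by rw [e1]; split_ifs <;> norm_num),
    use_of_ne_two_h (by rw [e2]; split_ifs <;> norm_num),
    use_of_ne_two_v (by rw [e3]; split_ifs <;> norm_num),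
    use_of_ne_two_v (by rw [e4]; split_ifs <;> norm_num)]
  rw [e1, e2, e3, e4] at h ⊢
  by_cases h3 : y = 3
  · subst h3
    by_cases hx2 : x = 1
    · subst hx2; decide
    · simp [hx1, hx2, show 1 ≤ x - 1 by omega]
  · exfalso
    simp [h3, show y - 1 ≠ 3 by omega] at h

theorem ok_top_right (h0 : 0 < s.length → sg s 0 = none) {j y : ℕ} (hy : y < 4) (hy1 : 1 ≤ y) :
    Ok s M a ch (5 + 4 * s.length + j) y (5 + 4 * s.length + j - 1) (y - 1) := by
  intro h
  have e1 : hC s M (5 + 4 * s.length + j) y = if y = 3 ∧ j < 2 then 0 else 4 := hC_topR hy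
  have e2 : hC s M (5 + 4 * s.length + j - 1) y = if y = 3 ∧ j < 3 then 0 else 4 := by
    rcases j with _ | j
    · rw [show 5 + 4 * s.length + 0 - 1 = 4 + 4 * s.length by omega,
        west_top h0 le_rfl hy hy1]
      have : sg s s.length = none := by
        by_contra hcon
        have := lt_of_sg hcon
        omega
      simp [this]
    · rw [show 5 + 4 * s.length + (j + 1) - 1 = 5 + 4 * s.length + j by omega, hC_topR hy]
      simp only [show j + 1 < 3 ↔ j < 2 by omega]
  have e3 : vC s M (5 + 4 * s.length + j) y = if y = 3 ∧ j = 2 then 0 else 4 := vC_topR hy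
  have e4 : vC s M (5 + 4 * s.length + j) (y - 1) = if y - 1 = 3 ∧ j = 2 then 0 else 4 :=
    vC_topR (by omega)
  rw [use_of_ne_two_h (by rw [e1]; split_ifs <;> norm_num),
    use_of_ne_two_h (by rw [e2]; split_ifs <;> norm_num),
    use_of_ne_two_v (by rw [e3]; split_ifs <;> norm_num),
    use_of_ne_two_v (by rw [e4]; split_ifs <;> norm_num)]
  rw [e1, e2, e3, e4] at h ⊢
  by_cases h3 : y = 3
  · subst h3
    rcases j with _ | _ | _ | j
    · decide
    · decide
    · decide
    · exfalso
      simp at h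
  · exfalso
    simp [h3, show y - 1 ≠ 3 by omega] at h

theorem hUse_top0 {k y : ℕ} (hk : k < s.length) (hy : y < 4) (hy1 : 1 ≤ y) :
    hUse s M a ch (5 + 4 * k) y = true := by
  have h := hUse_top (s := s) (M := M) (a := a) (ch := ch) (j := 0) hk (by norm_num) hy
  rw [show 5 + 4 * k = 5 + 4 * k + 0 from rfl, h]
  by_cases h3 : y = 3
  · simp [h3]
  · simp [h3, show y ≠ 0 by omega]

theorem ok_top_cell (h0 : 0 < s.length → sg s 0 = none) {k j y : ℕ} (hk : k < s.length)
    (hj : j < 4) (hy : y < 4) (hy1 : 1 ≤ y) :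
    Ok s M a ch (5 + 4 * k + j) y (5 + 4 * k + j - 1) (y - 1) := by
  intro _
  have e1 := hUse_top (s := s) (M := M) (a := a) (ch := ch) hk hj hy
  have e2 : hUse s M a ch (5 + 4 * k + j - 1) y =
      if j = 0 then decide (y = 3 ∨ sg s k ≠ none) else
        hUse s M a ch (5 + 4 * k + (j - 1)) y := by
    by_cases hj0 : j = 0
    · rw [if_pos hj0, hj0, show 5 + 4 * k + 0 - 1 = 4 + 4 * k by omega]
      have h := west_top (M := M) h0 hk.le hy hy1
      rw [use_of_ne_two_h (by rw [h]; split_ifs <;> norm_num), h]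
      split_ifs with h1 <;> simp [h1]
    · rw [if_neg hj0]
      congr 1
      omega
  have e3 := vUse_top (s := s) (M := M) (a := a) (ch := ch) hk hj hy
  have e4 := vUse_top (s := s) (M := M) (a := a) (ch := ch) hk hj (show y - 1 < 4 by omega)
  rw [e1, e2, e3, e4]
  rcases ho : sg s k with _ | ⟨v, b⟩
  · by_cases h1 : sg s (k + 1) = none
    · obtain rfl | rfl | rfl : y = 1 ∨ y = 2 ∨ y = 3 := by omega
      all_goals
        rcases j with _ | _ | _ | _ | j
        all_goals first | omega | simp [h1, ho, dock, hUse_top0 hk, hUse_top hk]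
    · obtain rfl | rfl | rfl : y = 1 ∨ y = 2 ∨ y = 3 := by omega
      all_goals
        rcases j with _ | _ | _ | _ | j
        all_goals first | omega | simp [h1, ho, dock, hUse_top0 hk, hUse_top hk]
  · rcases b with _ | _
    · by_cases h1 : sg s (k + 1) = none
      · obtain rfl | rfl | rfl : y = 1 ∨ y = 2 ∨ y = 3 := by omega
        all_goals
          rcases j with _ | _ | _ | _ | j
          all_goals first | omega | simp [h1, ho, dock, hUse_top0 hk, hUse_top hk]
      · obtain rfl | rfl | rfl : y = 1 ∨ y = 2 ∨ y = 3 := by omega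
        all_goals
          rcases j with _ | _ | _ | _ | j
          all_goals first | omega | simp [h1, ho, dock, hUse_top0 hk, hUse_top hk]
    · by_cases h1 : sg s (k + 1) = none
      · obtain rfl | rfl | rfl : y = 1 ∨ y = 2 ∨ y = 3 := by omega
        all_goals
          rcases j with _ | _ | _ | _ | j
          all_goals first | omega | (rcases hb : ch k <;> simp [h1, ho, hb, dock, hUse_top0 hk, hUse_top hk])
      · obtain rfl | rfl | rfl : y = 1 ∨ y = 2 ∨ y = 3 := by omega
        all_goals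
          rcases j with _ | _ | _ | _ | j
          all_goals first | omega | (rcases hb : ch k <;> simp [h1, ho, hb, dock, hUse_top0 hk, hUse_top hk])

theorem ok_left {x i r : ℕ} (hx : x < 5) (hx1 : 1 ≤ x) (hi : i < 2 * M + 1) (hr : r < 6) :
    Ok s M a ch x (4 + 6 * i + r) (x - 1) (4 + 6 * i + r - 1) := by
  intro h
  have e1 := hC_left (s := s) hx hi hr
  have e2 := hC_left (s := s) (show x - 1 < 5 by omega) hi hr
  have e3 := vC_left (s := s) hx hi hr
  have e4 : vC s M x (4 + 6 * i + r - 1) = if r = 0 then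
      (if x = 1 ∨ (x = 2 ∧ i % 2 = 1) then 0 else 4) else vL M i (r - 1) x := by
    by_cases h1 : r = 0
    · rw [if_pos h1, h1, show 4 + 6 * i + 0 - 1 = 3 + 6 * i by omega, north_left hx hi]
    · rw [if_neg h1, ← vC_left (s := s) hx hi (show r - 1 < 6 by omega)]
      congr 1
      omega
  have u1 := hUse_left (s := s) (a := a) (ch := ch) hx hi hr
  have u2 := hUse_left (s := s) (a := a) (ch := ch) (show x - 1 < 5 by omega) hi hr
  have u3 := vUse_left (s := s) (a := a) (ch := ch) hx hi hr
  have u4 : vUse s M a ch x (4 + 6 * i + r - 1) = if r = 0 then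
      decide (x = 1 ∨ (x = 2 ∧ i % 2 = 1)) else
      if vL M i (r - 1) x = 0 then true else if vL M i (r - 1) x = 2 then !bst s a i 0
        else false := by
    by_cases h1 : r = 0
    · rw [if_pos h1, h1, show 4 + 6 * i + 0 - 1 = 3 + 6 * i by omega]
      have h2 := north_left (s := s) hx hi
      rw [use_of_ne_two_v (by rw [h2]; split_ifs <;> norm_num), h2]
      split_ifs with h3 <;> simp [h3]
    · rw [if_neg h1, ← vUse_left (s := s) (a := a) (ch := ch) hx hi (show r - 1 < 6 by omega)]
      congr 1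
      omega
  rw [e1, e2, e3, e4] at h
  rw [u1, u2, u3, u4]
  clear e1 e2 e3 e4 u1 u2 u3 u4
  generalize bst s a i 0 = b
  obtain rfl | rfl | rfl | rfl : x = 1 ∨ x = 2 ∨ x = 3 ∨ x = 4 := by omega
  · obtain rfl | rfl | rfl | rfl | rfl | rfl : r = 0 ∨ r = 1 ∨ r = 2 ∨ r = 3 ∨ r = 4 ∨ r = 5 := by
      omega
    all_goals
      by_cases h1 : i < 2 * M
      · simp [hL, vL, h1, show i ≠ 2 * M by omega]
      · have h2 : i = 2 * M := by omega
        simp [hL, vL, h2] at h ⊢
  · obtain rfl | rfl | rfl | rfl | rfl | rfl : r = 0 ∨ r = 1 ∨ r = 2 ∨ r = 3 ∨ r = 4 ∨ r = 5 := by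
      omega
    all_goals
      rcases Nat.mod_two_eq_zero_or_one i with h3 | h3
      · by_cases h1 : i < 2 * M
        · simp [hL, vL, h1, h3, show i ≠ 2 * M by omega] at h ⊢
        · have h2 : i = 2 * M := by omega
          simp [hL, vL, h2] at h ⊢
      · have h1 : i < 2 * M := by omega
        simp [hL, vL, h3, show i ≠ 2 * M by omega] at h ⊢
  · obtain rfl | rfl | rfl | rfl | rfl | rfl : r = 0 ∨ r = 1 ∨ r = 2 ∨ r = 3 ∨ r = 4 ∨ r = 5 := by
      omega
    all_goals (cases b <;> simp [hL, vL] at h ⊢)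
  · obtain rfl | rfl | rfl | rfl | rfl | rfl : r = 0 ∨ r = 1 ∨ r = 2 ∨ r = 3 ∨ r = 4 ∨ r = 5 := by
      omega
    all_goals (cases b <;> simp [hL, vL] at h ⊢)

theorem ok_right {j i r : ℕ} (hi : i < 2 * M + 1) (hr : r < 6) :
    Ok s M a ch (5 + 4 * s.length + j) (4 + 6 * i + r) (5 + 4 * s.length + j - 1)
      (4 + 6 * i + r - 1) := by
  intro h
  have e1 := hC_right (s := s) (j := j) hi hr
  have e2 : hC s M (5 + 4 * s.length + j - 1) (4 + 6 * i + r) =
      if j = 0 then (if r % 2 = 1 then 0 else 4) else hR r (j - 1) := by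
    by_cases h1 : j = 0
    · rw [if_pos h1, h1, show 5 + 4 * s.length + 0 - 1 = 4 + 4 * s.length by omega,
        hC_west le_rfl hi hr]
    · rw [if_neg h1, ← hC_right (s := s) (j := j - 1) hi hr]
      congr 1
      omega
  have e3 := vC_right (s := s) (j := j) hi hr
  have e4 : vC s M (5 + 4 * s.length + j) (4 + 6 * i + r - 1) = if r = 0 then
      (if j = 2 ∧ i % 2 = 0 then 0 else 4) else vR i (r - 1) j := by
    by_cases h1 : r = 0
    · rw [if_pos h1, h1, show 4 + 6 * i + 0 - 1 = 3 + 6 * i by omega, north_right hi]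
    · rw [if_neg h1, ← vC_right (s := s) (j := j) hi (show r - 1 < 6 by omega)]
      congr 1
      omega
  have u1 := hUse_right (s := s) (a := a) (ch := ch) (j := j) hi hr
  have u2 : hUse s M a ch (5 + 4 * s.length + j - 1) (4 + 6 * i + r) =
      if j = 0 then decide (r % 2 = 1) else
      if hR r (j - 1) = 0 then true else if hR r (j - 1) = 2 then !bst s a i s.length
        else false := by
    by_cases h1 : j = 0
    · rw [if_pos h1, h1, show 5 + 4 * s.length + 0 - 1 = 4 + 4 * s.length by omega,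
        hUse_west le_rfl hi hr]
    · rw [if_neg h1, ← hUse_right (s := s) (a := a) (ch := ch) (j := j - 1) hi hr]
      congr 1
      omega
  have u3 := vUse_right (s := s) (a := a) (ch := ch) (j := j) hi hr
  have u4 : vUse s M a ch (5 + 4 * s.length + j) (4 + 6 * i + r - 1) = if r = 0 then
      decide (j = 2 ∧ i % 2 = 0) else
      if vR i (r - 1) j = 0 then true else if vR i (r - 1) j = 2 then bst s a i s.length
        else false := by
    by_cases h1 : r = 0
    · rw [if_pos h1, h1, show 4 + 6 * i + 0 - 1 = 3 + 6 * i by omega]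
      have h2 := north_right (s := s) (j := j) hi
      rw [use_of_ne_two_v (by rw [h2]; split_ifs <;> norm_num), h2]
      split_ifs with h3 <;> simp [h3]
    · rw [if_neg h1, ← vUse_right (s := s) (a := a) (ch := ch) (j := j) hi
        (show r - 1 < 6 by omega)]
      congr 1
      omega
  rw [e1, e2, e3, e4] at h
  rw [u1, u2, u3, u4]
  clear e1 e2 e3 e4 u1 u2 u3 u4
  generalize bst s a i s.length = b
  rcases j with _ | _ | _ | _ | j
  · obtain rfl | rfl | rfl | rfl | rfl | rfl : r = 0 ∨ r = 1 ∨ r = 2 ∨ r = 3 ∨ r = 4 ∨ r = 5 := by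
      omega
    all_goals (cases b <;> simp [hR, vR] at h ⊢)
  · obtain rfl | rfl | rfl | rfl | rfl | rfl : r = 0 ∨ r = 1 ∨ r = 2 ∨ r = 3 ∨ r = 4 ∨ r = 5 := by
      omega
    all_goals (cases b <;> simp [hR, vR] at h ⊢)
  · obtain rfl | rfl | rfl | rfl | rfl | rfl : r = 0 ∨ r = 1 ∨ r = 2 ∨ r = 3 ∨ r = 4 ∨ r = 5 := by
      omega
    all_goals
      rcases Nat.mod_two_eq_zero_or_one i with h3 | h3 <;> simp [hR, vR, h3] at h ⊢
  · obtain rfl | rfl | rfl | rfl | rfl | rfl : r = 0 ∨ r = 1 ∨ r = 2 ∨ r = 3 ∨ r = 4 ∨ r = 5 := by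
      omega
    all_goals simp [hR, vR] at h
  · obtain rfl | rfl | rfl | rfl | rfl | rfl : r = 0 ∨ r = 1 ∨ r = 2 ∨ r = 3 ∨ r = 4 ∨ r = 5 := by
      omega
    all_goals simp [hR, vR] at h

theorem ok_cell {k j i r : ℕ} (hk : k < s.length) (hj : j < 4) (hi : i < 2 * M + 1) (hr : r < 6)
    (hc : kind (sg s k) i = .dblk → ch k = true → bst s a i k = true) :
    Ok s M a ch (5 + 4 * k + j) (4 + 6 * i + r) (5 + 4 * k + j - 1) (4 + 6 * i + r - 1) := by
  intro h
  have e1 := hC_cell (s := s) hk hi hr hj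
  have e2 : hC s M (5 + 4 * k + j - 1) (4 + 6 * i + r) = wC (kind (sg s k) i) r j := by
    unfold wC
    by_cases h1 : j = 0
    · rw [if_pos h1, h1, show 5 + 4 * k + 0 - 1 = 4 + 4 * k by omega, hC_west hk.le hi hr]
    · rw [if_neg h1, ← hC_cell (s := s) hk hi hr (show j - 1 < 4 by omega)]
      congr 1
      omega
  have e3 := vC_cell (s := s) hk hi hr hj
  have e4 : vC s M (5 + 4 * k + j) (4 + 6 * i + r - 1) = nC (kind (sg s k) i) r j := by
    unfold nC
    by_cases h1 : r = 0
    · rw [if_pos h1, h1, show 4 + 6 * i + 0 - 1 = 3 + 6 * i by omega, vC_north hk hi hj]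
    · rw [if_neg h1, ← vC_cell (s := s) hk hi (show r - 1 < 6 by omega) hj]
      congr 1
      omega
  have u1 := hUse_cell (s := s) (a := a) (ch := ch) hk hi hr hj
  have u2 : hUse s M a ch (5 + 4 * k + j - 1) (4 + 6 * i + r) =
      wU (kind (sg s k) i) (bst s a i k) (ch k) r j := by
    unfold wU
    by_cases h1 : j = 0
    · rw [if_pos h1, h1, show 5 + 4 * k + 0 - 1 = 4 + 4 * k by omega, hUse_west hk.le hi hr]
    · rw [if_neg h1, ← hUse_cell (s := s) (a := a) (ch := ch) hk hi hr (show j - 1 < 4 by omega)]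
      congr 1
      omega
  have u3 := vUse_cell (s := s) (a := a) (ch := ch) hk hi hr hj
  have u4 : vUse s M a ch (5 + 4 * k + j) (4 + 6 * i + r - 1) =
      nU (kind (sg s k) i) (bst s a i k) (ch k) r j := by
    unfold nU
    by_cases h1 : r = 0
    · rw [if_pos h1, h1, show 4 + 6 * i + 0 - 1 = 3 + 6 * i by omega, vUse_north hk hi hj]
    · rw [if_neg h1, ← vUse_cell (s := s) (a := a) (ch := ch) hk hi (show r - 1 < 6 by omega) hj]
      congr 1
      omega
  rw [e1, e2, e3, e4] at h
  rw [u1, u2, u3, u4]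
  exact deg_local _ _ _ ⟨r, hr⟩ ⟨j, hj⟩ hc h

theorem no_bot {x y : ℕ} (hy : 4 + 6 * (2 * M + 1) ≤ y) : ¬ Vert (hC s M) (vC s M) (x, y) := by
  rintro (h | h | h | h)
  · simp only at h
    rw [hC_bot hy] at h
    omega
  · simp only at h
    rw [hC_bot hy] at h
    omega
  · simp only at h
    rw [vC_bot hy] at h
    omega
  · simp only at h
    rcases Nat.lt_or_ge (y - 1) (4 + 6 * (2 * M + 1)) with h1 | h1
    · have h2 : y - 1 = 4 + 6 * (2 * M) + 5 := by omega
      rw [h2] at h
      rcases pos_x s x with hx | ⟨k, j, hk, hj, rfl⟩ | ⟨j, rfl⟩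
      · rw [vC_left hx (by omega) (by norm_num)] at h
        rcases x with _ | _ | _ | _ | _ | x
        · simp [vL] at h
        · simp [vL] at h
        · simp [vL] at h
        · simp [vL] at h
        · simp [vL] at h
        · omega
      · rw [vC_cell hk (by omega) (by norm_num) hj] at h
        have : ∀ (κ : Kind) (j : Fin 4), vCell κ 5 j ≠ 0 := by
          intro κ
          cases κ <;> decide
        exact this _ ⟨j, hj⟩ h
      · rw [vC_right (by omega) (by norm_num)] at h
        rcases j with _ | _ | _ | j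
        · simp [vR] at h
        · simp [vR] at h
        · simp [vR] at h
        · simp [vR] at h
    · rw [vC_bot h1] at h
      omega

end

theorem deg : S_Deg := by
  intro s M a ch hs h0 hch
  refine ⟨?_, ?_, ?_⟩
  · intro x y h
    by_cases h1 : hC s M x y = 0
    · exact ⟨vert_h h1, vert_w h1⟩
    · by_cases h2 : hC s M x y = 2
      · exact hC_two h2
      · simp [hUse, h1, h2] at h
  · intro x y h
    by_cases h1 : vC s M x y = 0
    · exact ⟨vert_v h1, vert_n h1⟩
    · by_cases h2 : vC s M x y = 2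
      · exact vC_two hs h2
      · simp [vUse, h1, h2] at h
  · intro x y hv
    have key : Ok s M a ch (x + 1) (y + 1) (x + 1 - 1) (y + 1 - 1) := by
      rcases pos_y M (y + 1) with hy | ⟨i, r, hi, hr, hy⟩ | hy
      · rcases pos_x s (x + 1) with hx | ⟨k, j, hk, hj, hx⟩ | ⟨j, hx⟩
        · exact ok_top_left hx (by omega) hy (by omega)
        · rw [hx]; exact ok_top_cell h0 hk hj hy (by omega)
        · rw [hx]; exact ok_top_right h0 hy (by omega)
      · rcases pos_x s (x + 1) with hx | ⟨k, j, hk, hj, hx⟩ | ⟨j, hx⟩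
        · rw [hy]; exact ok_left hx (by omega) hi hr
        · rw [hx, hy]
          refine ok_cell hk hj hi hr ?_
          intro hκ hc
          obtain ⟨v, hv1, hv2⟩ := hch.ok k hc
          have h5 : i = v := by
            rw [hv1] at hκ
            simp only [kind] at hκ
            split_ifs at hκ with h6
            exact h6
          rw [h5]
          simp [bst, hv2]
        · rw [hx, hy]; exact ok_right hi hr
      · exact absurd hv (no_bot hy)
    exact key hv

end Pool.Agent.Helper58.Grid
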