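import Pool.Agent.Helper58.Grid.Clause

/-! # Soundness: the states are read off an assignment, and it satisfies the formula -/

namespace Pool.Agent.Helper58.Grid

open Pool.Agent.Helper52.Grid

/-- the blocks of a clause -/
def body (c : List (ℕ × Bool)) : List Sub :=
  c.flatMap (fun l => [some (l.1, l.2), some (l.1, !l.2)])

/-- number of blocks of row `i` in a list of subcolumns -/
def cn (i : ℕ) (s : List Sub) : ℕ :=
  (s.filter (fun o => decide ((o.map Prod.fst) = some i))).length

theorem cn_append (i : ℕ) (s t : List Sub) : cn i (s ++ t) = cn i s + cn i t := by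
  simp [cn]

theorem cn_none (i : ℕ) (s : List Sub) : cn i (none :: s) = cn i s := by
  simp [cn]

theorem cn_pair (i : ℕ) (l : ℕ × Bool) (b b' : Bool) (s : List Sub) :
    cn i (some (l.1, b) :: some (l.1, b') :: s) % 2 = cn i s % 2 := by
  by_cases h : l.1 = i
  · simp only [cn, Option.map_some, h, decide_true, List.filter_cons_of_pos, List.length_cons]
    omega
  · simp [cn, h]

theorem body_cons (l : ℕ × Bool) (c : List (ℕ × Bool)) :
    body (l :: c) = some (l.1, l.2) :: some (l.1, !l.2) :: body c := rfl

theorem body_append (c c' : List (ℕ × Bool)) : body (c ++ c') = body c ++ body c' := by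
  simp [body]

theorem cn_body (i : ℕ) (c : List (ℕ × Bool)) : cn i (body c) % 2 = 0 := by
  induction c with
  | nil => rfl
  | cons l c ih => rw [body_cons, cn_pair, ih]

theorem body_length (c : List (ℕ × Bool)) : (body c).length = 2 * c.length := by
  induction c with
  | nil => rfl
  | cons l c ih => rw [body_cons]; simp only [List.length_cons, ih]; ring

theorem subs_cons (c : List (ℕ × Bool)) (φ : CNF) :
    subs (c :: φ) = none :: (body c ++ subs φ) := rfl

theorem subs_append (φ ψ : CNF) : subs (φ ++ ψ) = subs φ ++ subs ψ := by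
  simp [subs]

theorem cn_subs (i : ℕ) (φ : CNF) : cn i (subs φ) % 2 = 0 := by
  induction φ with
  | nil => rfl
  | cons c φ ih => rw [subs_cons, cn_none, cn_append, Nat.add_mod, cn_body, ih]

theorem cnt_eq (s : List Sub) (i k : ℕ) : cnt s i k = cn i (s.take k) := rfl

theorem sg_append_right (s t : List Sub) (k : ℕ) : sg (s ++ t) (s.length + k) = sg t k := by
  unfold sg
  rw [List.getD_append_right _ _ _ _ (by omega)]
  congr 1
  omega

theorem sg_append_left (s t : List Sub) {k : ℕ} (h : k < s.length) : sg (s ++ t) k = sg s k := by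
  unfold sg
  rw [List.getD_append _ _ _ _ h]

theorem sg_body_ne (c : List (ℕ × Bool)) {t : ℕ} (h : t < (body c).length) :
    sg (body c) t ≠ none := by
  have hm : (body c)[t] ∈ body c := List.getElem_mem h
  have he : sg (body c) t = (body c)[t] := by
    unfold sg
    rw [List.getD_eq_getElem _ _ h]
  rw [he]
  intro h0
  rw [h0] at hm
  simp [body] at hm

theorem sg_subs_zero (φ : CNF) : sg (subs φ) 0 = none := by
  cases φ with
  | nil => rfl
  | cons c φ => rfl

/-- the members of `subs φ` -/
theorem mem_subs {φ : CNF} {i : ℕ} {d : Bool} (h : some (i, d) ∈ subs φ) :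
    ∃ c ∈ φ, ∃ l ∈ c, l.1 = i := by
  simp only [subs, List.mem_flatMap, clSubs, List.mem_cons, reduceCtorEq, false_or] at h
  obtain ⟨c, hc, l, hl, h⟩ := h
  refine ⟨c, hc, l, hl, ?_⟩
  simp only [List.not_mem_nil, or_false, Option.some.injEq, Prod.mk.injEq] at h
  rcases h with h | h
  · exact h.1.symm
  · exact h.1.symm

theorem sg_mem {s : List Sub} {k i : ℕ} {d : Bool} (h : sg s k = some (i, d)) :
    some (i, d) ∈ s := by
  have hk : k < s.length := lt_of_sg (by rw [h]; simp)
  have he : sg s k = s[k] := by
    unfold sg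
    rw [List.getD_eq_getElem _ _ hk]
  rw [← h, he]
  exact List.getElem_mem hk

theorem cnt_succ_self {s : List Sub} {k i : ℕ} {d : Bool} (h : sg s k = some (i, d)) :
    cnt s i (k + 1) = cnt s i k + 1 := by
  have hk : k < s.length := lt_of_sg (by rw [h]; simp)
  have he : sg s k = s[k] := by
    unfold sg
    rw [List.getD_eq_getElem _ _ hk]
  rw [cnt_eq, cnt_eq, List.take_add_one, cn_append]
  congr 1
  rw [List.getElem?_eq_getElem hk, ← he, h]
  simp [cn]

theorem cnt_succ_other {s : List Sub} {k i : ℕ} (h : ∀ d, sg s k ≠ some (i, d)) :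
    cnt s i (k + 1) = cnt s i k := by
  rcases Nat.lt_or_ge k s.length with hk | hk
  · have he : sg s k = s[k] := by
      unfold sg
      rw [List.getD_eq_getElem _ _ hk]
    rw [cnt_eq, cnt_eq, List.take_add_one, cn_append, List.getElem?_eq_getElem hk, ← he]
    rcases ho : sg s k with _ | ⟨j, b⟩
    · simp [cn]
    · have hji : j ≠ i := by
        rintro rfl
        exact h b ho
      simp [cn, hji]
  · rw [cnt_eq, cnt_eq, List.take_of_length_le hk, List.take_of_length_le (by omega)]

theorem cnt_const {s : List Sub} {k k' i : ℕ} (hk : k ≤ k')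
    (h : ∀ k'' d'', k ≤ k'' → k'' < k' → sg s k'' ≠ some (i, d'')) :
    cnt s i k' = cnt s i k := by
  induction k', hk using Nat.le_induction with
  | base => rfl
  | succ m hm ih =>
    rw [cnt_succ_other (fun d => h m d hm (by omega)), ih (fun k'' d'' h1 h2 => h k'' d'' h1
      (by omega))]

/-- reading the states -/
theorem reads_of_xor {s : List Sub} {vU : ℕ → ℕ → Bool}
    (hX : ∀ i k k' d d', k < k' → sg s k = some (i, d) → sg s k' = some (i, d') →
      (∀ k'' d'', k < k'' → k'' < k' → sg s k'' ≠ some (i, d'')) →
      sigma vU i k ≠ sigma vU i k') : ∃ a, Reads s vU a := by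
  classical
  let P : ℕ → ℕ → Prop := fun i k => ∃ d, sg s k = some (i, d)
  refine ⟨fun i => if h : ∃ k, P i k then sigma vU i (Nat.find h) else false, ?_⟩
  intro i k
  induction k using Nat.strong_induction_on with
  | _ k ih =>
  intro d hd
  have hP : ∃ k, P i k := ⟨k, d, hd⟩
  simp only [dif_pos hP]
  rcases Nat.eq_or_lt_of_le (Nat.find_min' hP ⟨d, hd⟩) with h | h
  · have h0 : cnt s i k = 0 := by
      have h1 := cnt_const (s := s) (i := i) (Nat.zero_le k) (by
        intro k'' d'' _ h2 h3
        have := Nat.find_min' hP ⟨d'', h3⟩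
        omega)
      rw [h1]
      simp [cnt]
    rw [h, h0]
    simp
  · -- the previous block
    have hex : ∃ k', k' < k ∧ P i k' ∧ ∀ k'' d'', k' < k'' → k'' < k → sg s k'' ≠ some (i, d'') := by
      by_contra hcon
      have hno : ∀ j, j ≤ k → ∀ k', k - j ≤ k' → k' < k → ¬ P i k' := by
        intro j
        induction j with
        | zero => intro _ k' h1 h2; omega
        | succ j ihj =>
          intro hj k' h1 h2 h3
          apply hcon
          rcases Nat.eq_or_lt_of_le h1 with h4 | h4
          · refine ⟨k', h2, h3, ?_⟩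
            intro k'' d'' h5 h6 h7
            exact ihj (by omega) k'' (by omega) h6 ⟨d'', h7⟩
          · exact absurd h3 (ihj (by omega) k' (by omega) h2)
      exact hno k le_rfl (Nat.find hP) (by omega) h (Nat.find_spec hP)
    obtain ⟨k', hk', ⟨d', hd'⟩, hb⟩ := hex
    have h1 := ih k' hk' d' hd'
    simp only [dif_pos hP] at h1
    have h2 := hX i k' k d' d hk' hd' hd hb
    have h3 : cnt s i k = cnt s i k' + 1 := by
      rw [cnt_const (s := s) (i := i) (k := k' + 1) (k' := k) (by omega) (by
        intro k'' d'' h4 h5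
        exact hb k'' d'' (by omega) h5), cnt_succ_self hd']
    rw [h3]
    have h4 : decide ((cnt s i k' + 1) % 2 = 0) = !decide (cnt s i k' % 2 = 0) := by
      rcases Nat.mod_two_eq_zero_or_one (cnt s i k') with h | h
      · have : (cnt s i k' + 1) % 2 = 1 := by omega
        simp [h, this]
      · have : (cnt s i k' + 1) % 2 = 0 := by omega
        simp [h, this]
    rw [h4]
    rw [h1] at h2
    generalize sigma vU i (Nat.find hP) = x at *
    generalize decide (cnt s i k' % 2 = 0) = y at *
    generalize sigma vU i k = z at *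
    revert h2
    cases x <;> cases y <;> cases z <;> simp

theorem sound (hX : S_Xor) (hC' : S_Clause) : S_Sound := by
  intro φ M hU vU hφ U
  have hs : ∀ k i d, sg (subs φ) k = some (i, d) → i < 2 * M + 1 := by
    intro k i d h
    obtain ⟨u, hc, l, hl, h1⟩ := mem_subs (sg_mem h)
    rw [← h1]
    exact hφ u hc l hl
  obtain ⟨a, ha⟩ := reads_of_xor (hX (subs φ) M hU vU hs U)
  refine ⟨a, ?_, ha⟩
  intro u hc
  obtain ⟨φ1, φ2, rfl⟩ := List.append_of_mem hc
  -- the position of the clause
  have hsub : subs (φ1 ++ u :: φ2) = subs φ1 ++ (none :: (body u ++ subs φ2)) := by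
    rw [subs_append, subs_cons]
  have e1 : sg (subs (φ1 ++ u :: φ2)) (subs φ1).length = none := by
    rw [hsub]
    have := sg_append_right (subs φ1) (none :: (body u ++ subs φ2)) 0
    rw [Nat.add_zero] at this
    rw [this]
    rfl
  have e2 : ∀ t, t < (body u).length →
      sg (subs (φ1 ++ u :: φ2)) ((subs φ1).length + (t + 1)) = sg (body u) t := by
    intro t ht
    rw [hsub, sg_append_right]
    exact sg_append_left (body u) (subs φ2) ht
  have e3 : sg (subs (φ1 ++ u :: φ2)) ((subs φ1).length + ((body u).length + 1)) = none := by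
    rw [hsub, sg_append_right]
    have h1 : sg (none :: (body u ++ subs φ2)) ((body u).length + 1) =
        sg (body u ++ subs φ2) ((body u).length + 0) := rfl
    rw [h1, sg_append_right, sg_subs_zero]
  obtain ⟨l, i, h1, h2, h3, h4⟩ := hC' (subs (φ1 ++ u :: φ2)) M hU vU hs U (subs φ1).length
    (body u).length e1 (by rw [hsub]; simp) (by
      intro l h1 h2
      have := e2 (l - (subs φ1).length - 1) (by omega)
      rw [show (subs φ1).length + (l - (subs φ1).length - 1 + 1) = l by omega] at this
      rw [this]
      exact sg_body_ne u (by omega)) (by rw [Nat.add_assoc]; exact e3)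
  -- the literal
  obtain ⟨t, rfl⟩ : ∃ t, l = (subs φ1).length + (t + 1) :=
    ⟨l - (subs φ1).length - 1, by omega⟩
  have ht : t < 2 * u.length := by rw [← body_length]; omega
  have hm : t / 2 < u.length := by omega
  set m := t / 2 with hmdef
  have hc1 : u = u.take m ++ u[m] :: u.drop (m + 1) := by
    rw [← List.drop_eq_getElem_cons hm, List.take_append_drop]
  set q := u[m] with hq
  set P : List Sub := subs φ1 ++ (none :: body (u.take m)) with hPdef
  have hs2 : subs (φ1 ++ u :: φ2) = P ++ (some (q.1, q.2) :: some (q.1, !q.2) ::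
      (body (u.drop (m + 1)) ++ subs φ2)) := by
    rw [hsub]
    conv_lhs => rw [hc1]
    rw [body_append, body_cons, hPdef]
    simp
  have hPl : P.length = (subs φ1).length + (2 * m + 1) := by
    rw [hPdef, List.length_append, List.length_cons, body_length, List.length_take]
    congr 2
    rw [Nat.min_eq_left hm.le]
  have hcP : cn i P % 2 = 0 := by
    rw [hPdef, cn_append, cn_none, Nat.add_mod, cn_subs, cn_body]
  have hr := ha i _ true h3
  rw [h4, cnt_eq] at hr
  refine ⟨q, List.getElem_mem hm, ?_⟩
  rcases Nat.mod_two_eq_zero_or_one t with h0 | h0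
  · have hl : (subs φ1).length + (t + 1) = P.length + 0 := by rw [hPl]; omega
    rw [hl, hs2, sg_append_right] at h3
    rw [hl, hs2, Nat.add_zero, List.take_left, hcP] at hr
    have h5 : some (q.1, q.2) = some (i, true) := h3
    simp only [Option.some.injEq, Prod.mk.injEq] at h5
    rw [h5.1, h5.2]
    simpa using hr
  · have hl : (subs φ1).length + (t + 1) = P.length + 1 := by rw [hPl]; omega
    rw [hl, hs2, sg_append_right] at h3
    have h5 : some (q.1, !q.2) = some (i, true) := h3
    simp only [Option.some.injEq, Prod.mk.injEq, Bool.not_eq_true'] at h5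
    have h6 : cn i (List.take (P.length + 1) (P ++ (some (q.1, q.2) :: some (q.1, !q.2) ::
      (body (u.drop (m + 1)) ++ subs φ2)))) % 2 = 1 := by
      rw [List.take_length_add_append, cn_append]
      have : cn i (List.take 1 (some (q.1, q.2) :: some (q.1, !q.2) ::
        (body (u.drop (m + 1)) ++ subs φ2))) = 1 := by
        simp [cn, h5.1]
      omega
    rw [hl, hs2, h6] at hr
    rw [h5.1, h5.2]
    simpa using hr

end Pool.Agent.Helper58.Grid
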