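import Pool.Agent.Helper58.Grid.Parity

/-! # Evaluation lemmas for the costs and for the used edges -/

namespace Pool.Agent.Helper58.Grid

open Pool.Agent.Helper52.Grid

section Costs

variable {s : List Sub} {M k i r j x y v : ℕ}

theorem hC_left (hx : x < 5) (hi : i < 2 * M + 1) (hr : r < 6) :
    hC s M x (4 + 6 * i + r) = hL M i r x := by
  have h1 : ¬ (4 + 6 * i + r < 4) := by omega
  have h2 : (4 + 6 * i + r - 4) / 6 = i := by omega
  have h6 : (4 + 6 * i + r - 4) % 6 = r := by omega
  simp only [hC, if_neg h1, h2, if_pos hi, if_pos hx, h6]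

theorem vC_left (hx : x < 5) (hi : i < 2 * M + 1) (hr : r < 6) :
    vC s M x (4 + 6 * i + r) = vL M i r x := by
  have h1 : ¬ (4 + 6 * i + r < 4) := by omega
  have h2 : (4 + 6 * i + r - 4) / 6 = i := by omega
  have h6 : (4 + 6 * i + r - 4) % 6 = r := by omega
  simp only [vC, if_neg h1, h2, if_pos hi, if_pos hx, h6]

theorem hC_right (hi : i < 2 * M + 1) (hr : r < 6) :
    hC s M (5 + 4 * s.length + j) (4 + 6 * i + r) = hR r j := by
  have h1 : ¬ (4 + 6 * i + r < 4) := by omega
  have h2 : (4 + 6 * i + r - 4) / 6 = i := by omega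
  have h3 : ¬ (5 + 4 * s.length + j < 5) := by omega
  have h4 : ¬ (5 + 4 * s.length + j < 5 + 4 * s.length) := by omega
  have h5 : 5 + 4 * s.length + j - (5 + 4 * s.length) = j := by omega
  have h6 : (4 + 6 * i + r - 4) % 6 = r := by omega
  simp only [hC, if_neg h1, h2, if_pos hi, if_neg h3, if_neg h4, h5, h6]

theorem vC_right (hi : i < 2 * M + 1) (hr : r < 6) :
    vC s M (5 + 4 * s.length + j) (4 + 6 * i + r) = vR i r j := by
  have h1 : ¬ (4 + 6 * i + r < 4) := by omega
  have h2 : (4 + 6 * i + r - 4) / 6 = i := by omega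
  have h3 : ¬ (5 + 4 * s.length + j < 5) := by omega
  have h4 : ¬ (5 + 4 * s.length + j < 5 + 4 * s.length) := by omega
  have h5 : 5 + 4 * s.length + j - (5 + 4 * s.length) = j := by omega
  have h6 : (4 + 6 * i + r - 4) % 6 = r := by omega
  simp only [vC, if_neg h1, h2, if_pos hi, if_neg h3, if_neg h4, h5, h6]

theorem hC_topL (hx : x < 5) (hy : y < 4) :
    hC s M x y = if y = 3 ∧ 1 ≤ x then 0 else 4 := by
  simp only [hC, if_pos hy, hT, if_pos hx]

theorem vC_topL (hx : x < 5) (hy : y < 4) :
    vC s M x y = if y = 3 ∧ x = 1 then 0 else 4 := by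
  simp only [vC, if_pos hy, vT, if_pos hx]

theorem hC_topR (hy : y < 4) :
    hC s M (5 + 4 * s.length + j) y = if y = 3 ∧ j < 2 then 0 else 4 := by
  have h3 : ¬ (5 + 4 * s.length + j < 5) := by omega
  have h4 : ¬ (5 + 4 * s.length + j < 5 + 4 * s.length) := by omega
  have h5 : (5 + 4 * s.length + j < 7 + 4 * s.length) ↔ j < 2 := by omega
  simp only [hC, if_pos hy, hT, if_neg h3, if_neg h4, h5]

theorem vC_topR (hy : y < 4) :
    vC s M (5 + 4 * s.length + j) y = if y = 3 ∧ j = 2 then 0 else 4 := by
  have h3 : ¬ (5 + 4 * s.length + j < 5) := by omega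
  have h4 : ¬ (5 + 4 * s.length + j < 5 + 4 * s.length) := by omega
  have h5 : (5 + 4 * s.length + j = 7 + 4 * s.length) ↔ j = 2 := by omega
  simp only [vC, if_pos hy, vT, if_neg h3, if_neg h4, h5]

theorem hC_bot (hy : 4 + 6 * (2 * M + 1) ≤ y) : hC s M x y = 4 := by
  have h1 : ¬ (y < 4) := by omega
  have h2 : ¬ ((y - 4) / 6 < 2 * M + 1) := by omega
  simp only [hC, if_neg h1, if_neg h2]

theorem vC_bot (hy : 4 + 6 * (2 * M + 1) ≤ y) : vC s M x y = 4 := by
  have h1 : ¬ (y < 4) := by omega
  have h2 : ¬ ((y - 4) / 6 < 2 * M + 1) := by omega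
  simp only [vC, if_neg h1, if_neg h2]

end Costs

/-! ## used edges -/

/-- used horizontal edges inside a cell -/
def hcell (κ : Kind) (b c : Bool) (r j : ℕ) : Bool :=
  if hCell κ r j = 0 then true else if hCell κ r j = 2 then
    (match κ, r with
    | .dblk, 1 => b && !c
    | .dblk, 3 => !b
    | .blk, 1 => b
    | .blk, 3 => !b
    | _, _ => false) else false

/-- used vertical edges inside a cell -/
def vcell (κ : Kind) (b c : Bool) (r j : ℕ) : Bool :=
  if vCell κ r j = 0 then true else if vCell κ r j = 2 then
    (match κ, r with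
    | .cross, r => if r % 2 = 0 then c else !c
    | .dblk, 0 => c
    | _, 1 => !b
    | _, _ => b) else false

section Used

variable {s : List Sub} {M k i r j x y v : ℕ} {a ch : ℕ → Bool}

theorem hUse_cell (hk : k < s.length) (hi : i < 2 * M + 1) (hr : r < 6) (hj : j < 4) :
    hUse s M a ch (5 + 4 * k + j) (4 + 6 * i + r) =
      hcell (kind (sg s k) i) (bst s a i k) (ch k) r j := by
  have h1 : ¬ (4 + 6 * i + r < 4) := by omega
  have h2 : (4 + 6 * i + r - 4) / 6 = i := by omega
  have h3 : ¬ (5 + 4 * k + j < 5) := by omega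
  have h4 : 5 + 4 * k + j < 5 + 4 * s.length := by omega
  have h5 : (5 + 4 * k + j - 5) / 4 = k := by omega
  have h6 : (4 + 6 * i + r - 4) % 6 = r := by omega
  simp only [hUse, hC_cell hk hi hr hj, hcell, hO, if_neg h1, h2, if_neg h3, if_pos h4, h5, h6]
  rfl

theorem vUse_cell (hk : k < s.length) (hi : i < 2 * M + 1) (hr : r < 6) (hj : j < 4) :
    vUse s M a ch (5 + 4 * k + j) (4 + 6 * i + r) =
      vcell (kind (sg s k) i) (bst s a i k) (ch k) r j := by
  have h1 : ¬ (4 + 6 * i + r < 4) := by omega
  have h2 : (4 + 6 * i + r - 4) / 6 = i := by omega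
  have h3 : ¬ (5 + 4 * k + j < 5) := by omega
  have h4 : 5 + 4 * k + j < 5 + 4 * s.length := by omega
  have h5 : (5 + 4 * k + j - 5) / 4 = k := by omega
  have h6 : (4 + 6 * i + r - 4) % 6 = r := by omega
  simp only [vUse, vC_cell hk hi hr hj, vcell, vO, if_neg h1, h2, if_neg h3, if_pos h4, h5, h6]
  rfl

theorem hUse_left (hx : x < 5) (hi : i < 2 * M + 1) (hr : r < 6) :
    hUse s M a ch x (4 + 6 * i + r) =
      if hL M i r x = 0 then true else if hL M i r x = 2 then bst s a i 0 else false := by
  have h1 : ¬ (4 + 6 * i + r < 4) := by omega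
  have h2 : (4 + 6 * i + r - 4) / 6 = i := by omega
  simp only [hUse, hC_left hx hi hr, hO, if_neg h1, h2, if_pos hx]

theorem vUse_left (hx : x < 5) (hi : i < 2 * M + 1) (hr : r < 6) :
    vUse s M a ch x (4 + 6 * i + r) =
      if vL M i r x = 0 then true else if vL M i r x = 2 then !bst s a i 0 else false := by
  have h1 : ¬ (4 + 6 * i + r < 4) := by omega
  have h2 : (4 + 6 * i + r - 4) / 6 = i := by omega
  simp only [vUse, vC_left hx hi hr, vO, if_neg h1, h2, if_pos hx]

theorem hUse_right (hi : i < 2 * M + 1) (hr : r < 6) :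
    hUse s M a ch (5 + 4 * s.length + j) (4 + 6 * i + r) =
      if hR r j = 0 then true else if hR r j = 2 then !bst s a i s.length else false := by
  have h1 : ¬ (4 + 6 * i + r < 4) := by omega
  have h2 : (4 + 6 * i + r - 4) / 6 = i := by omega
  have h3 : ¬ (5 + 4 * s.length + j < 5) := by omega
  have h4 : ¬ (5 + 4 * s.length + j < 5 + 4 * s.length) := by omega
  simp only [hUse, hC_right hi hr, hO, if_neg h1, h2, if_neg h3, if_neg h4]

theorem vUse_right (hi : i < 2 * M + 1) (hr : r < 6) :
    vUse s M a ch (5 + 4 * s.length + j) (4 + 6 * i + r) =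
      if vR i r j = 0 then true else if vR i r j = 2 then bst s a i s.length else false := by
  have h1 : ¬ (4 + 6 * i + r < 4) := by omega
  have h2 : (4 + 6 * i + r - 4) / 6 = i := by omega
  have h3 : ¬ (5 + 4 * s.length + j < 5) := by omega
  have h4 : ¬ (5 + 4 * s.length + j < 5 + 4 * s.length) := by omega
  simp only [vUse, vC_right hi hr, vO, if_neg h1, h2, if_neg h3, if_neg h4]

theorem hUse_top (hk : k < s.length) (hj : j < 4) (hy : y < 4) :
    hUse s M a ch (5 + 4 * k + j) y =
      if y = 3 then (if j = 1 ∧ dock (sg s k) = true then false else true)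
      else if y = 0 then false
      else if j = 3 ∧ sg s (k + 1) = none then false
      else if y = 2 ∧ j = 1 ∧ dock (sg s k) = true then !ch k
      else true := by
  have h5 : (5 + 4 * k + j - 5) / 4 = k := by omega
  simp only [hUse, hC_top hk hj hy, hO, if_pos hy, h5]
  split_ifs <;> simp_all

theorem vUse_top (hk : k < s.length) (hj : j < 4) (hy : y < 4) :
    vUse s M a ch (5 + 4 * k + j) y =
      if y = 0 then false
      else if y = 1 then
        (if j = 0 ∧ sg s k = none then true
        else if j = 3 ∧ sg s (k + 1) = none then true else false)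
      else (if (j = 1 ∨ j = 2) ∧ dock (sg s k) = true then (if y = 2 then ch k else !ch k)
        else false) := by
  have h5 : (5 + 4 * k + j - 5) / 4 = k := by omega
  simp only [vUse, vC_top hk hj hy, vO, if_pos hy, h5]
  split_ifs <;> simp_all

theorem use_of_ne_two_h (h : hC s M x y ≠ 2) : hUse s M a ch x y = decide (hC s M x y = 0) := by
  unfold hUse
  by_cases h0 : hC s M x y = 0
  · simp [h0]
  · simp [h0, h]

theorem use_of_ne_two_v (h : vC s M x y ≠ 2) : vUse s M a ch x y = decide (vC s M x y = 0) := by
  unfold vUse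
  by_cases h0 : vC s M x y = 0
  · simp [h0]
  · simp [h0, h]

/-! ## edges to the left neighbour and to the upper neighbour -/

/-- between two cells: the strands are forced, nothing else -/
theorem hC_west (hk : k ≤ s.length) (hi : i < 2 * M + 1) (hr : r < 6) :
    hC s M (4 + 4 * k) (4 + 6 * i + r) = if r % 2 = 1 then 0 else 4 := by
  rcases k with _ | k
  · rw [show 4 + 4 * 0 = 4 from rfl, hC_left (by norm_num) hi hr]
    rcases r with _ | _ | _ | _ | _ | _ | r
    all_goals first | rfl | omega
  · rw [show 4 + 4 * (k + 1) = 5 + 4 * k + 3 by omega, hC_cell (by omega) hi hr (by norm_num)]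
    rcases r with _ | _ | _ | _ | _ | _ | r
    all_goals first | (cases kind (sg s k) i <;> rfl) | omega

theorem hUse_west (hk : k ≤ s.length) (hi : i < 2 * M + 1) (hr : r < 6) :
    hUse s M a ch (4 + 4 * k) (4 + 6 * i + r) = decide (r % 2 = 1) := by
  have h := hC_west hk hi hr
  rw [use_of_ne_two_h (by rw [h]; split_ifs <;> norm_num), h]
  split_ifs with h1 <;> simp [h1]

/-- the vertical edges above row `i` -/
theorem vC_north (hk : k < s.length) (hi : i < 2 * M + 1) (hj : j < 4) :
    vC s M (5 + 4 * k + j) (3 + 6 * i) =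
      if (kind (sg s k) i = .cross ∨ kind (sg s k) i = .dblk) ∧ (j = 1 ∨ j = 2) then 2 else 4 := by
  rcases i with _ | i
  · rw [show 3 + 6 * 0 = 3 from rfl, vC_top hk hj (by norm_num), if_neg (by norm_num),
      if_neg (by norm_num)]
    rcases ho : sg s k with _ | ⟨v, b⟩
    · simp [dock, kind]
    · rcases b with _ | _
      · rcases v with _ | v <;> simp [dock, kind]
      · rcases v with _ | v
        · simp [dock, kind]
        · simp [dock, kind]
  · rw [show 3 + 6 * (i + 1) = 4 + 6 * i + 5 by omega, vC_cell hk (by omega) (by norm_num) hj]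
    rcases ho : sg s k with _ | ⟨v, b⟩
    · simp only [kind, vCell]
      simp
    · rcases b with _ | _
      · have h1 : kind (some (v, false)) i ≠ .cross ∧ kind (some (v, false)) i ≠ .dblk := by
          simp only [kind]; split_ifs <;> simp_all
        have h2 : kind (some (v, false)) (i + 1) ≠ .cross ∧
            kind (some (v, false)) (i + 1) ≠ .dblk := by
          simp only [kind]; split_ifs <;> simp_all
        rw [if_neg (by rintro ⟨h | h, -⟩; exacts [h2.1 h, h2.2 h])]
        cases hκ : kind (some (v, false)) i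
        · rfl
        · exact absurd hκ h1.1
        · rfl
        · exact absurd hκ h1.2
      · rcases Nat.lt_trichotomy i v with h | h | h
        · have h1 : kind (some (v, true)) i = .cross := by
            simp only [kind]
            rw [if_neg (by omega), if_pos ⟨trivial, h⟩]
          have h2 : kind (some (v, true)) (i + 1) = .cross ∨
              kind (some (v, true)) (i + 1) = .dblk := by
            simp only [kind]
            by_cases h3 : i + 1 = v
            · right; simp [h3]
            · left
              rw [if_neg h3, if_pos ⟨trivial, by omega⟩]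
          rw [h1]
          rcases j with _ | _ | _ | _ | j
          · rw [if_neg (by omega)]; rfl
          · rw [if_pos ⟨h2, by omega⟩]; rfl
          · rw [if_pos ⟨h2, by omega⟩]; rfl
          · rw [if_neg (by omega)]; rfl
          · omega
        · have h1 : kind (some (v, true)) i = .dblk := by
            simp [kind, h]
          have h2 : kind (some (v, true)) (i + 1) = .plain := by
            simp only [kind]
            rw [if_neg (by omega), if_neg (by rintro ⟨_, h3⟩; omega)]
          rw [h1, h2]
          simp [vCell]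
        · have h1 : kind (some (v, true)) i = .plain := by
            simp only [kind]
            rw [if_neg (by omega), if_neg (by rintro ⟨_, h3⟩; omega)]
          have h2 : kind (some (v, true)) (i + 1) = .plain := by
            simp only [kind]
            rw [if_neg (by omega), if_neg (by rintro ⟨_, h3⟩; omega)]
          rw [h1, h2]
          simp [vCell]

theorem vUse_north (hk : k < s.length) (hi : i < 2 * M + 1) (hj : j < 4) :
    vUse s M a ch (5 + 4 * k + j) (3 + 6 * i) =
      if (kind (sg s k) i = .cross ∨ kind (sg s k) i = .dblk) ∧ (j = 1 ∨ j = 2) then !ch k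
        else false := by
  have h := vC_north hk hi hj
  by_cases h1 : (kind (sg s k) i = .cross ∨ kind (sg s k) i = .dblk) ∧ (j = 1 ∨ j = 2)
  · rw [if_pos h1] at h
    rw [if_pos h1]
    unfold vUse
    rw [h, if_neg (by norm_num), if_pos rfl]
    have h5 : (5 + 4 * k + j - 5) / 4 = k := by omega
    rcases i with _ | i
    · simp only [vO, h5]
      norm_num
    · have h2 : ¬ (3 + 6 * (i + 1) < 4) := by omega
      have h3 : ¬ (5 + 4 * k + j < 5) := by omega
      have h4 : 5 + 4 * k + j < 5 + 4 * s.length := by omega
      have h6 : (3 + 6 * (i + 1) - 4) / 6 = i := by omega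
      have h7 : (3 + 6 * (i + 1) - 4) % 6 = 5 := by omega
      simp only [vO, if_neg h2, if_neg h3, if_pos h4, h5, h6, h7]
      have hcr : kind (sg s k) i = .cross := by
        rcases ho : sg s k with _ | ⟨v, b⟩
        · rw [ho] at h1; simp [kind] at h1
        · rw [ho] at h1
          rcases b with _ | _
          · exfalso
            rcases h1.1 with h8 | h8 <;> (simp only [kind] at h8; split_ifs at h8 <;> simp_all)
          · have hv : i < v := by
              by_contra hcon
              rcases h1.1 with h8 | h8 <;> (simp only [kind] at h8; split_ifs at h8 <;> omega)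
            simp only [kind]
            rw [if_neg (by omega), if_pos ⟨trivial, hv⟩]
      rw [hcr]
      norm_num
  · rw [if_neg h1] at h
    rw [if_neg h1, use_of_ne_two_v (by rw [h]; norm_num), h]
    norm_num

end Used

end Pool.Agent.Helper58.Grid
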