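import Pool.Agent.Helper58.Grid.Parity

/-! # Each clause contains a docked block in state `true` -/

namespace Pool.Agent.Helper58.Grid

open Pool.Agent.Helper52.Grid

theorem clause : S_Clause := by
  intro s M hU vU hs U k n hk hkl hmid hend
  -- subcolumns of the clause
  have hlt : ∀ l, k ≤ l → l ≤ k + n → l < s.length := by
    intro l h1 h2
    rcases Nat.eq_or_lt_of_le h1 with h | h
    · rw [← h]; exact hkl
    · exact lt_of_sg (hmid l h h2)
  by_cases hex : ∃ l i, k < l ∧ l ≤ k + n ∧ sg s l = some (i, true) ∧
      (vU (6 + 4 * l) 2 = true ∨ vU (7 + 4 * l) 2 = true)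
  · obtain ⟨l, i, h1, h2, h3, h4⟩ := hex
    refine ⟨l, i, h1, h2, h3, ?_⟩
    have hi := hs l i true h3
    have hp := parity U h3 hi (Nat.zero_le _)
    apply sigma_of_dock U h3 hi
    rcases h4 with h4 | h4
    · exact h4
    · rw [show 2 + 2 * 0 = 2 from rfl] at hp
      rw [hp]; exact h4
  exfalso
  -- the ring is closed
  let S : Pt → Prop := fun a => (5 + 4 * k ≤ a.1 ∧ a.1 ≤ 8 + 4 * (k + n)) ∧ (1 ≤ a.2 ∧ a.2 ≤ 2)
  have hS1 : ∀ x y, hU x y = true → (S (x, y) ↔ S (x + 1, y)) := by
    intro x y hxy
    simp only [S]
    by_cases hy : 1 ≤ y ∧ y ≤ 2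
    · have hc : hC s M x y = 0 ∨ hC s M x y = 2 := by
        by_contra hcon
        rw [not_or] at hcon
        have := U.h4 x y hcon.1 hcon.2
        rw [this] at hxy
        exact Bool.noConfusion hxy
      have h1 : x ≠ 4 + 4 * k := by
        rintro rfl
        rcases k with _ | k
        · have : hC s M 4 y = 4 := by
            simp only [hC, hT]
            rw [if_pos (by omega), if_pos (by omega), if_neg (by omega)]
          rw [show 4 + 4 * 0 = 4 from rfl, this] at hc
          omega
        · have hk' : k < s.length := by omega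
          rw [show 4 + 4 * (k + 1) = 5 + 4 * k + 3 by omega,
            hC_top hk' (by norm_num) (by omega)] at hc
          rw [if_neg (by omega), if_neg (by omega), if_pos ⟨rfl, hk⟩] at hc
          omega
      have h2 : x ≠ 8 + 4 * (k + n) := by
        rintro rfl
        rw [show 8 + 4 * (k + n) = 5 + 4 * (k + n) + 3 by omega,
          hC_top (hlt (k + n) (by omega) le_rfl) (by norm_num) (by omega)] at hc
        rw [if_neg (by omega), if_neg (by omega), if_pos ⟨rfl, hend⟩] at hc
        omega
      constructor
      · rintro ⟨_, _⟩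
        exact ⟨by omega, by omega⟩
      · rintro ⟨_, _⟩
        exact ⟨by omega, by omega⟩
    · constructor <;> exact fun h => absurd h.2 hy
  have hS2 : ∀ x y, vU x y = true → (S (x, y) ↔ S (x, y + 1)) := by
    intro x y hxy
    simp only [S]
    have hc : vC s M x y = 0 ∨ vC s M x y = 2 := by
      by_contra hcon
      rw [not_or] at hcon
      have := U.v4 x y hcon.1 hcon.2
      rw [this] at hxy
      exact Bool.noConfusion hxy
    by_cases hx : 5 + 4 * k ≤ x ∧ x ≤ 8 + 4 * (k + n)
    · obtain ⟨l, j, hj, rfl⟩ : ∃ l j, j < 4 ∧ x = 5 + 4 * l + j :=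
        ⟨(x - 5) / 4, (x - 5) % 4, by omega, by omega⟩
      have hl : l < s.length := hlt l (by omega) (by omega)
      have h0 : y ≠ 0 := by
        rintro rfl
        rw [vC_top hl hj (by norm_num), if_pos rfl] at hc
        omega
      have h2 : y ≠ 2 := by
        rintro rfl
        rw [vC_top hl hj (by norm_num), if_neg (by omega), if_neg (by omega)] at hc
        have hj2 : (j = 1 ∨ j = 2) ∧ dock (sg s l) = true := by
          by_contra hcon
          rw [if_neg hcon] at hc
          omega
        obtain ⟨i, hi⟩ : ∃ i, sg s l = some (i, true) := by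
          rcases ho : sg s l with _ | ⟨i, b⟩
          · rw [ho] at hj2
            exact absurd hj2.2 (by simp [dock])
          · rcases b with _ | _
            · rw [ho] at hj2
              exact absurd hj2.2 (by simp [dock])
            · exact ⟨i, rfl⟩
        have hkl' : l ≠ k := by
          rintro rfl
          rw [hk] at hi
          exact absurd hi (by simp)
        apply hex
        refine ⟨l, i, by omega, by omega, hi, ?_⟩
        rcases hj2.1 with rfl | rfl
        · left
          rwa [show 6 + 4 * l = 5 + 4 * l + 1 by omega]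
        · right
          rwa [show 7 + 4 * l = 5 + 4 * l + 2 by omega]
      constructor
      · rintro ⟨_, _⟩
        exact ⟨hx, by omega⟩
      · rintro ⟨_, _⟩
        exact ⟨hx, by omega⟩
    · constructor <;> exact fun h => absurd h.1 hx
  have hv1 : Vert (hC s M) (vC s M) (5 + 4 * k, 1) := by
    right; right; left
    have := vC_top (M := M) (j := 0) (y := 1) hkl (by norm_num) (by norm_num)
    rw [if_neg (by omega), if_pos rfl, if_pos ⟨rfl, hk⟩] at this
    exact this
  have hv2 : Vert (hC s M) (vC s M) (1, 3) := by
    left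
    simp [hC, hT]
  have h := U.cut S hS1 hS2 (5 + 4 * k, 1) (1, 3) hv1 hv2 ⟨by simp only; omega, by simp only; omega⟩
  have := h.2.2
  simp only at this
  omega

end Pool.Agent.Helper58.Grid
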