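import Pool.Agent.Helper52.Grid.Defs

/-! # Docked subcolumns: parity lemma and descent to the block -/

namespace Pool.Agent.Helper58.Grid

open Pool.Agent.Helper52.Grid

theorem lt_of_sg {s : List Sub} {k : ℕ} (h : sg s k ≠ none) : k < s.length := by
  by_contra hk
  apply h
  unfold sg
  rw [List.getD_eq_default _ _ (by omega)]

theorem toNat_inj {a b : Bool} (h : a.toNat = b.toNat) : a = b := by
  cases a <;> cases b <;> simp_all

theorem hC_cell {s : List Sub} {M k i r j : ℕ} (hk : k < s.length) (hi : i < 2 * M + 1)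
    (hr : r < 6) (hj : j < 4) :
    hC s M (5 + 4 * k + j) (4 + 6 * i + r) = hCell (kind (sg s k) i) r j := by
  have h1 : ¬ (4 + 6 * i + r < 4) := by omega
  have h2 : (4 + 6 * i + r - 4) / 6 = i := by omega
  have h3 : ¬ (5 + 4 * k + j < 5) := by omega
  have h4 : 5 + 4 * k + j < 5 + 4 * s.length := by omega
  have h5 : (5 + 4 * k + j - 5) / 4 = k := by omega
  have h6 : (4 + 6 * i + r - 4) % 6 = r := by omega
  have h7 : (5 + 4 * k + j - 5) % 4 = j := by omega
  simp only [hC, if_neg h1, h2, if_pos hi, if_neg h3, if_pos h4, h5, h6, h7]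

theorem vC_cell {s : List Sub} {M k i r j : ℕ} (hk : k < s.length) (hi : i < 2 * M + 1)
    (hr : r < 6) (hj : j < 4) :
    vC s M (5 + 4 * k + j) (4 + 6 * i + r) = vCell (kind (sg s k) i) r j := by
  have h1 : ¬ (4 + 6 * i + r < 4) := by omega
  have h2 : (4 + 6 * i + r - 4) / 6 = i := by omega
  have h3 : ¬ (5 + 4 * k + j < 5) := by omega
  have h4 : 5 + 4 * k + j < 5 + 4 * s.length := by omega
  have h5 : (5 + 4 * k + j - 5) / 4 = k := by omega
  have h6 : (4 + 6 * i + r - 4) % 6 = r := by omega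
  have h7 : (5 + 4 * k + j - 5) % 4 = j := by omega
  simp only [vC, if_neg h1, h2, if_pos hi, if_neg h3, if_pos h4, h5, h6, h7]

theorem hC_top {s : List Sub} {M k j y : ℕ} (hk : k < s.length) (hj : j < 4) (hy : y < 4) :
    hC s M (5 + 4 * k + j) y =
      if y = 3 then (if j = 1 ∧ dock (sg s k) = true then 2 else 0)
      else if y = 0 then 4
      else if j = 3 ∧ sg s (k + 1) = none then 4
      else if y = 2 ∧ j = 1 ∧ dock (sg s k) = true then 2
      else 0 := by
  have h3 : ¬ (5 + 4 * k + j < 5) := by omega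
  have h4 : 5 + 4 * k + j < 5 + 4 * s.length := by omega
  have h5 : (5 + 4 * k + j - 5) / 4 = k := by omega
  have h7 : (5 + 4 * k + j - 5) % 4 = j := by omega
  simp only [hC, if_pos hy, hT, if_neg h3, if_pos h4, h5, h7]

theorem vC_top {s : List Sub} {M k j y : ℕ} (hk : k < s.length) (hj : j < 4) (hy : y < 4) :
    vC s M (5 + 4 * k + j) y =
      if y = 0 then 4
      else if y = 1 then
        (if j = 0 ∧ sg s k = none then 0
        else if j = 3 ∧ sg s (k + 1) = none then 0 else 4)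
      else (if (j = 1 ∨ j = 2) ∧ dock (sg s k) = true then 2 else 4) := by
  have h3 : ¬ (5 + 4 * k + j < 5) := by omega
  have h4 : 5 + 4 * k + j < 5 + 4 * s.length := by omega
  have h5 : (5 + 4 * k + j - 5) / 4 = k := by omega
  have h7 : (5 + 4 * k + j - 5) % 4 = j := by omega
  simp only [vC, if_pos hy, vT, if_neg h3, if_pos h4, h5, h7]

section Use

variable {s : List Sub} {M : ℕ} {hU vU : ℕ → ℕ → Bool} {k v : ℕ}

/-- the ring at a docked subcolumn -/
theorem ring_dock (U : Use (hC s M) (vC s M) hU vU) (hd : sg s k = some (v, true)) :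
    (hU (5 + 4 * k + 1) 2).toNat + (vU (5 + 4 * k + 1) 2).toNat = 1 ∧
    (hU (5 + 4 * k + 1) 2).toNat + (vU (5 + 4 * k + 2) 2).toNat = 1 := by
  have hk : k < s.length := lt_of_sg (by rw [hd]; simp)
  have hD : dock (sg s k) = true := by rw [hd]; rfl
  have a1 : hC s M (5 + 4 * k + 0) 2 = 0 := by
    rw [hC_top hk (by norm_num) (by norm_num)]; simp
  have a2 : hC s M (5 + 4 * k + 2) 2 = 0 := by
    rw [hC_top hk (by norm_num) (by norm_num)]; simp
  have a3 : vC s M (5 + 4 * k + 1) 1 = 4 := by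
    rw [vC_top hk (by norm_num) (by norm_num)]; simp
  have a4 : vC s M (5 + 4 * k + 2) 1 = 4 := by
    rw [vC_top hk (by norm_num) (by norm_num)]; simp
  have b1 : hU (5 + 4 * k + 0) 2 = true := U.h0 _ _ a1
  have b2 : hU (5 + 4 * k + 2) 2 = true := U.h0 _ _ a2
  have b3 : vU (5 + 4 * k + 1) 1 = false := U.v4 _ _ (by rw [a3]; norm_num) (by rw [a3]; norm_num)
  have b4 : vU (5 + 4 * k + 2) 1 = false := U.v4 _ _ (by rw [a4]; norm_num) (by rw [a4]; norm_num)
  have d1 := U.deg (5 + 4 * k) 1 (U.hV (5 + 4 * k) 2 b1).2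
  have d2 := U.deg (5 + 4 * k + 1) 1 (U.hV (5 + 4 * k + 2) 2 b2).1
  simp only [Nat.reduceAdd] at d1 d2
  rw [show 5 + 4 * k + 0 = 5 + 4 * k from rfl] at b1
  rw [b1, b3] at d1
  rw [show 5 + 4 * k + 1 + 1 = 5 + 4 * k + 2 from rfl, b2, b4] at d2
  simp only [Bool.toNat_true, Bool.toNat_false] at d1 d2
  omega

theorem kind_cross {i : ℕ} (hd : sg s k = some (v, true)) (h : i < v) :
    kind (sg s k) i = .cross := by
  rw [hd]
  simp only [kind]
  rw [if_neg (by omega), if_pos ⟨trivial, h⟩]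

theorem kind_dblk (hd : sg s k = some (v, true)) : kind (sg s k) v = .dblk := by
  rw [hd]
  simp [kind]

theorem hC_strand (hd : sg s k = some (v, true)) (hv : v < 2 * M + 1) {l j : ℕ}
    (hl : l ≤ 3 * v) (hj : j = 0 ∨ j = 2) : hC s M (5 + 4 * k + j) (3 + 2 * l) = 0 := by
  have hk : k < s.length := lt_of_sg (by rw [hd]; simp)
  rcases l with _ | m
  · rcases hj with rfl | rfl
    · rw [hC_top hk (by norm_num) (by norm_num)]; simp
    · rw [hC_top hk (by norm_num) (by norm_num)]; simp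
  · have hy : 3 + 2 * (m + 1) = 4 + 6 * (m / 3) + (2 * (m % 3) + 1) := by omega
    rw [hy, hC_cell hk (by omega) (by omega) (by omega), kind_cross hd (by omega)]
    have ht : m % 3 = 0 ∨ m % 3 = 1 ∨ m % 3 = 2 := by omega
    rcases ht with ht | ht | ht <;> rcases hj with rfl | rfl <;> rw [ht] <;> rfl

theorem hC_cluster (hd : sg s k = some (v, true)) (hv : v < 2 * M + 1) {m : ℕ}
    (hl : m ≤ 3 * v) : hC s M (5 + 4 * k + 1) (4 + 2 * m) = 0 ∧
      hC s M (5 + 4 * k + 0) (4 + 2 * m) = 4 ∧ hC s M (5 + 4 * k + 2) (4 + 2 * m) = 4 := by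
  have hk : k < s.length := lt_of_sg (by rw [hd]; simp)
  have hy : 4 + 2 * m = 4 + 6 * (m / 3) + 2 * (m % 3) := by omega
  rw [hy, hC_cell hk (by omega) (by omega) (by omega), hC_cell hk (by omega) (by omega) (by omega),
    hC_cell hk (by omega) (by omega) (by omega)]
  rcases Nat.lt_or_ge (m / 3) v with h | h
  · rw [kind_cross hd h]
    have ht : m % 3 = 0 ∨ m % 3 = 1 ∨ m % 3 = 2 := by omega
    rcases ht with ht | ht | ht <;> rw [ht] <;> exact ⟨rfl, rfl, rfl⟩
  · have h1 : m / 3 = v := by omega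
    have h2 : m % 3 = 0 := by omega
    rw [h1, h2, kind_dblk hd]
    exact ⟨rfl, rfl, rfl⟩

/-- strands above the block of a docked subcolumn: the digons -/
theorem strand (U : Use (hC s M) (vC s M) hU vU) (hd : sg s k = some (v, true))
    (hv : v < 2 * M + 1) {l : ℕ} (hl : l ≤ 3 * v) :
    (hU (5 + 4 * k + 1) (3 + 2 * l)).toNat + (vU (5 + 4 * k + 1) (2 + 2 * l)).toNat +
      (vU (5 + 4 * k + 1) (3 + 2 * l)).toNat = 1 ∧
    (hU (5 + 4 * k + 1) (3 + 2 * l)).toNat + (vU (5 + 4 * k + 2) (2 + 2 * l)).toNat +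
      (vU (5 + 4 * k + 2) (3 + 2 * l)).toNat = 1 := by
  have b1 : hU (5 + 4 * k + 0) (3 + 2 * l) = true := U.h0 _ _ (hC_strand hd hv hl (Or.inl rfl))
  have b2 : hU (5 + 4 * k + 2) (3 + 2 * l) = true := U.h0 _ _ (hC_strand hd hv hl (Or.inr rfl))
  have d1 := U.deg (5 + 4 * k) (2 + 2 * l) (by
    have := (U.hV _ _ b1).2
    rwa [show 3 + 2 * l = 2 + 2 * l + 1 by omega] at this)
  have d2 := U.deg (5 + 4 * k + 1) (2 + 2 * l) (by
    have := (U.hV _ _ b2).1
    rwa [show 3 + 2 * l = 2 + 2 * l + 1 by omega] at this)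
  rw [show 5 + 4 * k + 0 = 5 + 4 * k from rfl] at b1
  rw [show 2 + 2 * l + 1 = 3 + 2 * l by omega, b1] at d1
  rw [show 2 + 2 * l + 1 = 3 + 2 * l by omega, show 5 + 4 * k + 1 + 1 = 5 + 4 * k + 2 from rfl,
    b2] at d2
  simp only [Bool.toNat_true] at d1 d2
  omega

/-- clusters above the block of a docked subcolumn -/
theorem cluster (U : Use (hC s M) (vC s M) hU vU) (hd : sg s k = some (v, true))
    (hv : v < 2 * M + 1) {m : ℕ} (hl : m ≤ 3 * v) :
    (vU (5 + 4 * k + 1) (3 + 2 * m)).toNat + (vU (5 + 4 * k + 1) (4 + 2 * m)).toNat = 1 ∧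
    (vU (5 + 4 * k + 2) (3 + 2 * m)).toNat + (vU (5 + 4 * k + 2) (4 + 2 * m)).toNat = 1 := by
  obtain ⟨a1, a2, a3⟩ := hC_cluster (M := M) hd hv hl
  have b1 : hU (5 + 4 * k + 1) (4 + 2 * m) = true := U.h0 _ _ a1
  have b2 : hU (5 + 4 * k + 0) (4 + 2 * m) = false :=
    U.h4 _ _ (by rw [a2]; norm_num) (by rw [a2]; norm_num)
  have b3 : hU (5 + 4 * k + 2) (4 + 2 * m) = false :=
    U.h4 _ _ (by rw [a3]; norm_num) (by rw [a3]; norm_num)
  have d1 := U.deg (5 + 4 * k) (3 + 2 * m) (by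
    have := (U.hV _ _ b1).1
    rwa [show 4 + 2 * m = 3 + 2 * m + 1 by omega] at this)
  have d2 := U.deg (5 + 4 * k + 1) (3 + 2 * m) (by
    have := (U.hV _ _ b1).2
    rwa [show 4 + 2 * m = 3 + 2 * m + 1 by omega] at this)
  rw [show 5 + 4 * k + 0 = 5 + 4 * k from rfl] at b2
  rw [show 3 + 2 * m + 1 = 4 + 2 * m by omega, b1, b2] at d1
  rw [show 3 + 2 * m + 1 = 4 + 2 * m by omega, show 5 + 4 * k + 1 + 1 = 5 + 4 * k + 2 from rfl,
    b1, b3] at d2
  simp only [Bool.toNat_true, Bool.toNat_false] at d1 d2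
  omega

/-- PARITY LEMMA: at a docked subcolumn (`c = 6 + 4 k`) whose block lies in row `v`, the two
vertical edges above the level `l ≤ 3 v + 1` are both used or both unused -/
theorem parity (U : Use (hC s M) (vC s M) hU vU) (hd : sg s k = some (v, true))
    (hv : v < 2 * M + 1) {l : ℕ} (hl : l ≤ 3 * v + 1) :
    vU (6 + 4 * k) (2 + 2 * l) = vU (7 + 4 * k) (2 + 2 * l) := by
  rw [show 6 + 4 * k = 5 + 4 * k + 1 by omega, show 7 + 4 * k = 5 + 4 * k + 2 by omega]
  induction l with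
  | zero =>
    have h := ring_dock U hd
    simp only [Nat.mul_zero, Nat.add_zero]
    have h3 : (vU (5 + 4 * k + 1) 2).toNat = (vU (5 + 4 * k + 2) 2).toNat := by omega
    exact toNat_inj h3
  | succ l ih =>
    have h1 := ih (by omega)
    have h2 := strand U hd hv (show l ≤ 3 * v by omega)
    have h3 := cluster U hd hv (show l ≤ 3 * v by omega)
    have h4 : (vU (5 + 4 * k + 1) (4 + 2 * l)).toNat = (vU (5 + 4 * k + 2) (4 + 2 * l)).toNat := by
      rw [h1] at h2
      omega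
    rw [show 2 + 2 * (l + 1) = 4 + 2 * l by omega]
    exact toNat_inj h4

/-- also the edges below a level -/
theorem parity' (U : Use (hC s M) (vC s M) hU vU) (hd : sg s k = some (v, true))
    (hv : v < 2 * M + 1) {l : ℕ} (hl : l ≤ 3 * v) :
    vU (6 + 4 * k) (3 + 2 * l) = vU (7 + 4 * k) (3 + 2 * l) := by
  have h1 := parity U hd hv (show l ≤ 3 * v + 1 by omega)
  rw [show 6 + 4 * k = 5 + 4 * k + 1 by omega, show 7 + 4 * k = 5 + 4 * k + 2 by omega] at h1 ⊢
  have h2 := strand U hd hv hl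
  rw [h1] at h2
  apply toNat_inj
  omega

/-- the descent: if the ring uses the dock then the block is in state `true` -/
theorem sigma_of_dock (U : Use (hC s M) (vC s M) hU vU) (hd : sg s k = some (v, true))
    (hv : v < 2 * M + 1) (h : vU (6 + 4 * k) 2 = true) : sigma vU v k = true := by
  have hk : k < s.length := lt_of_sg (by rw [hd]; simp)
  rw [show 6 + 4 * k = 5 + 4 * k + 1 by omega] at h
  have key : ∀ l, l ≤ 3 * v + 1 → vU (5 + 4 * k + 1) (2 + 2 * l) = true := by
    intro l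
    induction l with
    | zero => intro _; exact h
    | succ l ih =>
      intro hl
      have h1 := ih (by omega)
      have h2 := (strand U hd hv (show l ≤ 3 * v by omega)).1
      have h3 := (cluster U hd hv (show l ≤ 3 * v by omega)).1
      rw [h1] at h2
      rw [show 2 + 2 * (l + 1) = 4 + 2 * l by omega]
      rcases hb : vU (5 + 4 * k + 1) (4 + 2 * l) with _ | _
      · rw [hb] at h3
        simp only [Bool.toNat_true, Bool.toNat_false] at h2 h3
        omega
      · rfl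
  have hup := key (3 * v + 1) le_rfl
  rw [show 2 + 2 * (3 * v + 1) = 4 + 6 * v by omega] at hup
  -- the vertex b1
  have a1 : hC s M (5 + 4 * k + 0) (4 + 6 * v + 1) = 0 := by
    rw [hC_cell hk hv (by norm_num) (by norm_num), kind_dblk hd]; rfl
  have b1 : hU (5 + 4 * k + 0) (4 + 6 * v + 1) = true := U.h0 _ _ a1
  have d1 := U.deg (5 + 4 * k) (4 + 6 * v) (U.hV _ _ b1).2
  rw [show 5 + 4 * k + 0 = 5 + 4 * k from rfl] at b1
  rw [b1, hup] at d1
  have e1 : vU (5 + 4 * k + 1) (4 + 6 * v + 1) = false := by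
    rcases hb : vU (5 + 4 * k + 1) (4 + 6 * v + 1) with _ | _
    · rfl
    · rw [hb] at d1
      simp only [Bool.toNat_true] at d1
      omega
  -- the vertex b2
  have a2 : hC s M (5 + 4 * k + 0) (4 + 6 * v + 2) = 0 := by
    rw [hC_cell hk hv (by norm_num) (by norm_num), kind_dblk hd]; rfl
  have a3 : hC s M (5 + 4 * k + 1) (4 + 6 * v + 2) = 4 := by
    rw [hC_cell hk hv (by norm_num) (by norm_num), kind_dblk hd]; rfl
  have b2 : hU (5 + 4 * k + 0) (4 + 6 * v + 2) = true := U.h0 _ _ a2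
  have b3 : hU (5 + 4 * k + 1) (4 + 6 * v + 2) = false :=
    U.h4 _ _ (by rw [a3]; norm_num) (by rw [a3]; norm_num)
  have d2 := U.deg (5 + 4 * k) (4 + 6 * v + 1) (U.hV _ _ b2).2
  rw [show 5 + 4 * k + 0 = 5 + 4 * k from rfl] at b2
  rw [show 4 + 6 * v + 1 + 1 = 4 + 6 * v + 2 from rfl, b2, b3, e1] at d2
  unfold sigma
  rw [show 6 + 4 * k = 5 + 4 * k + 1 by omega, show 6 + 6 * v = 4 + 6 * v + 2 by omega]
  rcases hb : vU (5 + 4 * k + 1) (4 + 6 * v + 2) with _ | _
  · rw [hb] at d2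
    simp at d2
  · rfl

end Use

end Pool.Agent.Helper58.Grid
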